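import Pool.Agent.IsoE.STop

/-!
# Examples

Compiled special cases of `stop`: `good_iff` (no condition besides squarefreeness if all base sets are points or affine
lines), `ex_affine` (no base, one equation with affinely independent exponent vectors and coefficients in `D_n`),
`ex_const` (linearly independent exponent vectors and a constant term), `ex_torus` (affinely independent exponent vectors,
all unknowns units), `ex_one` (one base curve, one equation), `ex_surface` (`y ^ 2 = x ^ 3 + a(z) x` over a curve),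
`ex_prod` (`y ^ N = a f₁(z₁) ⋯ f_s(z_s)`), `ex_tower` (`x ^ 2 = y (y ^ 3 + a z ^ 5 + c(t))`, two equations with common
unknowns).
-/

set_option autoImplicit false

noncomputable section

namespace Pool.Agent.IsoE

open Finset Polynomial Pool.Agent.PRc Pool.Agent.Grz Pool.Agent.CvS Pool.Agent.IsoC

/-- if all base sets are in spaces of dimension at most one, good means squarefree -/
theorem good_iff {n b d : ℕ} {A q : Fin b → ℕ} (hA : ∀ l, A l ≤ 1)
    (P : ∀ l, Fin (q l) → (Fin (A l) → Fin (d + 1)) → (Fin n → ℕ) → ℕ) (v : Fin n → ℕ) (m : ℕ) :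
    Gd P v m ↔ Squarefree m := by
  refine ⟨fun h => h.1, fun h => ⟨h, fun p hp _ l => ⟨hp, fun i j hij => ?_⟩⟩⟩
  have h1 := hA l
  have h2 := i.2
  have h3 := j.2
  have h4 : (i : ℕ) < j := hij
  omega

private theorem aff_to {s r : ℕ} {M : Fin r → Fin s → ℕ}
    (hM : AffineIndependent ℚ (fun i : Fin r => fun t : Fin s => (M i t : ℚ))) (w : Fin r → ℚ)
    (hw : ∑ i, w i = 0) (h : ∀ t, ∑ i, w i * (M i t : ℚ) = 0) : ∀ i, w i = 0 := by
  rw [affineIndependent_iff_of_fintype] at hM
  refine hM w hw ?_
  rw [Finset.weightedVSub_eq_linear_combination _ hw]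
  funext t
  simpa [Finset.sum_apply] using h t

private theorem aff_of {s r : ℕ} {M : Fin r → Fin s → ℕ} (h : ∀ w : Fin r → ℚ, ∑ i, w i = 0 →
    (∀ t, ∑ i, w i * (M i t : ℚ) = 0) → ∀ i, w i = 0) :
    AffineIndependent ℚ (fun i : Fin r => fun t : Fin s => (M i t : ℚ)) := by
  rw [affineIndependent_iff_of_fintype]
  intro w hw h1
  rw [Finset.weightedVSub_eq_linear_combination _ hw] at h1
  refine h w hw fun t => ?_
  have h2 := congrFun h1 t
  simpa [Finset.sum_apply] using h2

private theorem sval_one {a d : ℕ} (c : ℕ) {R : Type} [CommRing R] (z : Fin a → R) :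
    sval (fun e : Fin a → Fin (d + 1) => if e = 0 then c else 0) z = (c : R) := by
  unfold sval
  rw [Finset.sum_eq_single 0]
  · simp
  · intro e _ he
    simp [he]
  · intro h
    exact absurd (Finset.mem_univ _) h

private theorem cst_dfun {n a d : ℕ} {c : (Fin n → ℕ) → ℕ} (hc : DFun n c)
    (e : Fin a → Fin (d + 1)) : DFun n (fun v => if e = 0 then c v else 0) := by
  by_cases h : e = 0
  · simp only [h, if_true]
    exact hc
  · simp only [h, if_false]
    exact DFun.const 0

private theorem cast_pred {m : ℕ} (hm : m ≠ 0) : ((m - 1 : ℕ) : ZMod m) = -1 := by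
  rw [Nat.cast_sub (Nat.one_le_iff_ne_zero.2 hm), ZMod.natCast_self, Nat.cast_one, zero_sub]

private theorem sval_poly {d : ℕ} (c : Fin (d + 1) → ℕ) {R : Type} [CommRing R] (z : Fin 1 → R) :
    sval (fun e : Fin 1 → Fin (d + 1) => c (e 0)) z = ∑ i, (c i : R) * z 0 ^ (i : ℕ) := by
  unfold sval
  rw [← Equiv.sum_comp (Equiv.funUnique (Fin 1) (Fin (d + 1))).symm]
  refine Finset.sum_congr rfl fun i _ => ?_
  rw [Fin.prod_univ_one]
  rfl

open scoped Classical in
/-- no base, several equations -/
theorem ex_base0 {n s k : ℕ} {u : Fin k → ℕ} (M : ∀ j, Fin (u j) → Fin s → ℕ)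
    (hM : ∀ g : ∀ j, Fin (u j) → ℚ, (∀ j, ∑ i, g j i = 0) →
      (∀ t, ∑ j, ∑ i, g j i * M j i t = 0) → ∀ j i, g j i = 0)
    (a : ∀ j, Fin (u j) → (Fin n → ℕ) → ℕ) (ha : ∀ j i, DFun n (a j i)) (m : (Fin n → ℕ) → ℕ)
    (hm : DFun n m) :
    DFun n (fun v => if Squarefree (m v) then
      Nat.card {x : Fin s → ZMod (m v) //
        ∀ j, ∑ i, (a j i v : ZMod (m v)) * ∏ t, x t ^ M j i t = 0} else 0) := by
  have h := stop (n := n) (b := 0) (d := 0) (A := fun _ => 0) (q := fun _ => 0) (fun l => l.elim0)
    (fun l => l.elim0) M hM a ha (fun _ _ l => l.elim0) (fun _ _ l => l.elim0) m hm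
  refine (congrArg (DFun n) (funext fun v => ?_)).mp h
  by_cases hv : Squarefree (m v)
  · rw [if_pos hv, if_pos ((good_iff (fun l => l.elim0) _ v (m v)).2 hv)]
    refine Nat.card_congr
      { toFun := fun w => ⟨w.1.2, fun j => ?_⟩
        invFun := fun x => ⟨(fun l => l.elim0, x.1), fun l => l.elim0, fun j => ?_⟩
        left_inv := fun w => ?_
        right_inv := fun w => rfl }
    · have h3 := w.2.2 j
      simp only [cs, Finset.univ_eq_empty, Finset.prod_empty, mul_one] at h3
      exact h3
    · have h3 := x.2 j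
      simp only [cs, Finset.univ_eq_empty, Finset.prod_empty, mul_one]
      exact h3
    · apply Subtype.ext
      refine Prod.ext ?_ rfl
      funext l
      exact l.elim0
  · rw [if_neg hv, if_neg fun h => hv h.1]

open scoped Classical in
/-- affinely independent exponent vectors, coefficients in `D_n` -/
theorem ex_affine {n s r : ℕ} (M : Fin r → Fin s → ℕ)
    (hM : AffineIndependent ℚ (fun i : Fin r => fun t : Fin s => (M i t : ℚ)))
    (a : Fin r → (Fin n → ℕ) → ℕ) (ha : ∀ i, DFun n (a i)) (m : (Fin n → ℕ) → ℕ)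
    (hm : DFun n m) :
    DFun n (fun v => if Squarefree (m v) then
      Nat.card {x : Fin s → ZMod (m v) // ∑ i, (a i v : ZMod (m v)) * ∏ t, x t ^ M i t = 0}
        else 0) := by
  have h := ex_base0 (n := n) (s := s) (k := 1) (u := fun _ => r) (fun _ => M)
    (fun g h1 h2 j i => ?_) (fun _ => a) (fun _ => ha) m hm
  · refine (congrArg (DFun n) (funext fun v => if_congr Iff.rfl ?_ rfl)).mp h
    exact Nat.card_congr (Equiv.subtypeEquivRight fun x => ⟨fun h => h 0, fun h _ => h⟩)
  · rw [Subsingleton.elim j 0]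
    refine aff_to hM (g 0) (h1 0) (fun t => ?_) i
    have h3 := h2 t
    rwa [Fin.sum_univ_one] at h3

open scoped Classical in
/-- linearly independent exponent vectors and a constant term -/
theorem ex_const {n s r : ℕ} (M : Fin r → Fin s → ℕ)
    (hM : LinearIndependent ℚ (fun i : Fin r => fun t : Fin s => (M i t : ℚ)))
    (c : (Fin n → ℕ) → ℕ) (hc : DFun n c) (a : Fin r → (Fin n → ℕ) → ℕ) (ha : ∀ i, DFun n (a i))
    (m : (Fin n → ℕ) → ℕ) (hm : DFun n m) :
    DFun n (fun v => if Squarefree (m v) then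
      Nat.card {x : Fin s → ZMod (m v) // (c v : ZMod (m v)) +
        ∑ i, (a i v : ZMod (m v)) * ∏ t, x t ^ M i t = 0} else 0) := by
  have hM' : AffineIndependent ℚ (fun i : Fin (r + 1) => fun t : Fin s =>
      (((Fin.cons (fun _ => 0) M : Fin (r + 1) → Fin s → ℕ) i t : ℕ) : ℚ)) := by
    refine aff_of fun w hw h => ?_
    have h1 : ∀ i : Fin r, w i.succ = 0 := by
      rw [Fintype.linearIndependent_iff] at hM
      refine hM (fun i => w i.succ) ?_
      funext t
      have h2 := h t
      rw [Fin.sum_univ_succ] at h2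
      simpa [Finset.sum_apply] using h2
    intro i
    refine Fin.cases ?_ h1 i
    rw [Fin.sum_univ_succ] at hw
    simpa [h1] using hw
  have h := ex_affine (n := n) (Fin.cons (fun _ => 0) M : Fin (r + 1) → Fin s → ℕ) hM'
    (Fin.cons c a) (fun i => Fin.cases hc ha i) m hm
  refine (congrArg (DFun n) (funext fun v => if_congr Iff.rfl ?_ rfl)).mp h
  refine Nat.card_congr (Equiv.subtypeEquivRight fun x => ?_)
  rw [Fin.sum_univ_succ]
  simp only [Fin.cons_zero, Fin.cons_succ, pow_zero, Finset.prod_const_one, mul_one]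

/-- the sizes of the equations of `ex_torus` -/
private def uG (s r : ℕ) : Fin (s + 1) → ℕ := Fin.cons r fun _ => 2

/-- the exponents of `ex_torus`: unknowns `x t` and `x' t`, equations `∑ a i * x ^ M i = 0`, `x t * x' t = 1` -/
private def MG {s r : ℕ} (M : Fin r → Fin s → ℕ) (j : Fin (s + 1)) :
    Fin (uG s r j) → Fin (s + s) → ℕ :=
  Fin.cases (motive := fun j => Fin (uG s r j) → Fin (s + s) → ℕ)
    (fun (i : Fin r) => Fin.append (M i) fun _ => 0)
    (fun t => (![fun x => if x = Fin.castAdd s t ∨ x = Fin.natAdd s t then 1 else 0, fun _ => 0] :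
      Fin 2 → Fin (s + s) → ℕ)) j

open scoped Classical in
/-- affinely independent exponent vectors, all unknowns units modulo `m` -/
theorem ex_torus {n s r : ℕ} (M : Fin r → Fin s → ℕ)
    (hM : AffineIndependent ℚ (fun i : Fin r => fun t : Fin s => (M i t : ℚ)))
    (a : Fin r → (Fin n → ℕ) → ℕ) (ha : ∀ i, DFun n (a i)) (m : (Fin n → ℕ) → ℕ)
    (hm : DFun n m) :
    DFun n (fun v => if Squarefree (m v) then
      Nat.card {x : Fin s → (ZMod (m v))ˣ // ∑ i, (a i v : ZMod (m v)) *
        ∏ t, (x t : ZMod (m v)) ^ M i t = 0} else 0) := by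
  set aG : ∀ j, Fin (uG s r j) → (Fin n → ℕ) → ℕ := fun j =>
    Fin.cases (motive := fun j => Fin (uG s r j) → (Fin n → ℕ) → ℕ) a
      (fun _ => (![fun v => m v - 1, fun _ => 1] : Fin 2 → (Fin n → ℕ) → ℕ)) j with haG
  have h := ex_base0 (n := n) (s := s + s) (k := s + 1) (u := uG s r) (MG M)
    (fun g h1 h2 => ?_) aG (fun j => ?_) m hm
  · refine (congrArg (DFun n) (funext fun v => ?_)).mp h
    by_cases hv : Squarefree (m v)
    · rw [if_pos hv, if_pos hv]
      have hx0 : ∀ y : Fin (s + s) → ZMod (m v),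
          ∑ i, (aG 0 i v : ZMod (m v)) * ∏ t, y t ^ MG M 0 i t =
            ∑ i, (a i v : ZMod (m v)) * ∏ t, y (Fin.castAdd s t) ^ M i t := by
        intro y
        have h6 : ∑ i, (aG 0 i v : ZMod (m v)) * ∏ t, y t ^ MG M 0 i t =
            ∑ i : Fin r, (a i v : ZMod (m v)) * ∏ t, y t ^ Fin.append (M i) (fun _ => 0) t := rfl
        rw [h6]
        refine Finset.sum_congr rfl fun i _ => ?_
        rw [Fin.prod_univ_add]
        simp only [Fin.append_left, Fin.append_right, pow_zero, Finset.prod_const_one, mul_one]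
      have hx1 : ∀ (y : Fin (s + s) → ZMod (m v)) (t : Fin s),
          ∑ i, (aG t.succ i v : ZMod (m v)) * ∏ x, y x ^ MG M t.succ i x = 0 ↔
            y (Fin.castAdd s t) * y (Fin.natAdd s t) = 1 := by
        intro y t
        have h6 : ∑ i, (aG t.succ i v : ZMod (m v)) * ∏ x, y x ^ MG M t.succ i x =
            ((m v - 1 : ℕ) : ZMod (m v)) *
              ∏ x, y x ^ (if x = Fin.castAdd s t ∨ x = Fin.natAdd s t then 1 else 0) +
            ((1 : ℕ) : ZMod (m v)) * ∏ x : Fin (s + s), y x ^ 0 := Fin.sum_univ_two _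
        have h7 : ∏ x, y x ^ (if x = Fin.castAdd s t ∨ x = Fin.natAdd s t then 1 else 0) =
            y (Fin.castAdd s t) * y (Fin.natAdd s t) := by
          rw [Fin.prod_univ_add]
          congr 1
          · rw [Finset.prod_eq_single t]
            · simp
            · intro t' _ ht'
              have e1 : Fin.castAdd s t' ≠ Fin.castAdd s t := fun h =>
                ht' (Fin.castAdd_injective s s h)
              have e2 : Fin.castAdd s t' ≠ Fin.natAdd s t := by
                intro h
                have := congrArg Fin.val h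
                simp only [Fin.val_castAdd, Fin.val_natAdd] at this
                omega
              rw [if_neg (not_or.2 ⟨e1, e2⟩), pow_zero]
            · intro h
              exact absurd (Finset.mem_univ _) h
          · rw [Finset.prod_eq_single t]
            · simp
            · intro t' _ ht'
              have e1 : Fin.natAdd s t' ≠ Fin.natAdd s t := fun h =>
                ht' (Fin.natAdd_injective s s h)
              have e2 : Fin.natAdd s t' ≠ Fin.castAdd s t := by
                intro h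
                have := congrArg Fin.val h
                simp only [Fin.val_castAdd, Fin.val_natAdd] at this
                omega
              rw [if_neg (not_or.2 ⟨e2, e1⟩), pow_zero]
            · intro h
              exact absurd (Finset.mem_univ _) h
        rw [h6, h7, cast_pred hv.ne_zero]
        simp only [pow_zero, Finset.prod_const_one, mul_one, Nat.cast_one]
        constructor
        · intro h
          linear_combination -h
        · intro h
          linear_combination -h
      refine Nat.card_congr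
        { toFun := fun w => ⟨fun t => ⟨w.1 (Fin.castAdd s t), w.1 (Fin.natAdd s t),
            (hx1 w.1 t).1 (w.2 t.succ), ?_⟩, ?_⟩
          invFun := fun x => ⟨Fin.append (fun t => (x.1 t : ZMod (m v)))
            fun t => ((x.1 t)⁻¹ : (ZMod (m v))ˣ), fun j => ?_⟩
          left_inv := fun w => ?_
          right_inv := fun x => ?_ }
      · rw [mul_comm]
        exact (hx1 w.1 t).1 (w.2 t.succ)
      · exact (hx0 w.1).symm.trans (w.2 0)
      · refine Fin.cases ?_ (fun t => ?_) j
        · rw [hx0]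
          simp only [Fin.append_left]
          exact x.2
        · rw [hx1, Fin.append_left, Fin.append_right]
          exact Units.mul_inv _
      · apply Subtype.ext
        funext x
        refine Fin.addCases (fun t => ?_) (fun t => ?_) x
        · dsimp only
          rw [Fin.append_left]
        · dsimp only
          rw [Fin.append_right]
          rfl
      · apply Subtype.ext
        funext t
        apply Units.ext
        dsimp only
        rw [Fin.append_left]
    · rw [if_neg hv, if_neg hv]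
  · have k1 : ∀ t : Fin s, g t.succ (0 : Fin 2) = 0 := by
      intro t
      have f1 := h2 (Fin.natAdd s t)
      rw [Fin.sum_univ_succ] at f1
      have e1 : ∑ i, g 0 i * (MG M 0 i (Fin.natAdd s t) : ℚ) = 0 := by
        have e2 : ∑ i, g 0 i * (MG M 0 i (Fin.natAdd s t) : ℚ) = ∑ i : Fin r, g 0 i *
            ((Fin.append (M i) (fun _ => 0) (Fin.natAdd s t) : ℕ) : ℚ) := rfl
        rw [e2]
        simp only [Fin.append_right, Nat.cast_zero, mul_zero, Finset.sum_const_zero]
      have e3 : ∀ t' : Fin s, ∑ i, g t'.succ i * (MG M t'.succ i (Fin.natAdd s t) : ℚ) =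
          g t'.succ (0 : Fin 2) * (if t = t' then 1 else 0) := by
        intro t'
        have e4 : ∑ i, g t'.succ i * (MG M t'.succ i (Fin.natAdd s t) : ℚ) =
            g t'.succ (0 : Fin 2) * (((if Fin.natAdd s t = Fin.castAdd s t' ∨
              Fin.natAdd s t = Fin.natAdd s t' then 1 else 0 : ℕ)) : ℚ) +
            g t'.succ (1 : Fin 2) * ((0 : ℕ) : ℚ) := Fin.sum_univ_two _
        have e5 : Fin.natAdd s t ≠ Fin.castAdd s t' := by
          intro h
          have := congrArg Fin.val h
          simp only [Fin.val_castAdd, Fin.val_natAdd] at this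
          omega
        rw [e4, Nat.cast_zero, mul_zero, add_zero]
        congr 1
        by_cases h : t = t'
        · subst h
          rw [if_pos (Or.inr rfl), if_pos rfl, Nat.cast_one]
        · have e6 : Fin.natAdd s t ≠ Fin.natAdd s t' := fun h' =>
            h (Fin.natAdd_injective s s h')
          rw [if_neg (not_or.2 ⟨e5, e6⟩), if_neg h, Nat.cast_zero]
      rw [e1, zero_add, Finset.sum_congr rfl fun t' _ => e3 t'] at f1
      simpa using f1
    have k2 : ∀ t : Fin s, g t.succ (1 : Fin 2) = 0 := by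
      intro t
      have e2 : g t.succ (0 : Fin 2) + g t.succ (1 : Fin 2) = 0 :=
        (Fin.sum_univ_two _).symm.trans (h1 t.succ)
      rw [k1, zero_add] at e2
      exact e2
    have k3 : ∀ i : Fin r, g 0 i = 0 := by
      refine aff_to hM (g 0) (h1 0) fun t => ?_
      have f1 := h2 (Fin.castAdd s t)
      rw [Fin.sum_univ_succ] at f1
      have e3 : ∀ t' : Fin s, ∑ i, g t'.succ i * (MG M t'.succ i (Fin.castAdd s t) : ℚ) = 0 := by
        intro t'
        have e4 : ∑ i, g t'.succ i * (MG M t'.succ i (Fin.castAdd s t) : ℚ) =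
            g t'.succ (0 : Fin 2) * (((if Fin.castAdd s t = Fin.castAdd s t' ∨
              Fin.castAdd s t = Fin.natAdd s t' then 1 else 0 : ℕ)) : ℚ) +
            g t'.succ (1 : Fin 2) * ((0 : ℕ) : ℚ) := Fin.sum_univ_two _
        rw [e4, k1, zero_mul, Nat.cast_zero, mul_zero, add_zero]
      rw [Finset.sum_congr rfl fun t' _ => e3 t', Finset.sum_const_zero, add_zero] at f1
      have e2 : ∑ i, g 0 i * (MG M 0 i (Fin.castAdd s t) : ℚ) = ∑ i : Fin r, g 0 i *
          ((Fin.append (M i) (fun _ => 0) (Fin.castAdd s t) : ℕ) : ℚ) := rfl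
      rw [e2] at f1
      simpa only [Fin.append_left] using f1
    intro j
    refine Fin.cases k3 (fun t i => ?_) j
    have : ∀ i : Fin 2, g t.succ i = 0 := by
      intro i
      fin_cases i
      · exact k1 t
      · exact k2 t
    exact this i
  · refine Fin.cases ha (fun t i => ?_) j
    have : ∀ i : Fin 2, DFun n (aG t.succ i) := by
      intro i
      fin_cases i
      · exact DFun.sub hm (DFun.const 1)
      · exact DFun.const 1
    exact this i

open scoped Classical in
/-- one base set and one equation -/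
theorem ex_one {n s r A q d : ℕ} (P : Fin q → (Fin A → Fin (d + 1)) → (Fin n → ℕ) → ℕ)
    (hP : ∀ e x, DFun n (P e x)) (M : Fin r → Fin s → ℕ)
    (hM : AffineIndependent ℚ (fun i : Fin r => fun t : Fin s => (M i t : ℚ)))
    (a : Fin r → (Fin n → ℕ) → ℕ) (ha : ∀ i, DFun n (a i))
    (f : Fin r → (Fin A → Fin (d + 1)) → (Fin n → ℕ) → ℕ) (hf : ∀ i e, DFun n (f i e))
    (m : (Fin n → ℕ) → ℕ) (hm : DFun n m) :
    DFun n (fun v => if Squarefree (m v) ∧ ∀ p, p.Prime → p ∣ m v → Cv p (fun e x => P e x v) then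
      Nat.card {w : (Fin A → ZMod (m v)) × (Fin s → ZMod (m v)) //
        (∀ e, sval (fun x => P e x v) w.1 = 0) ∧
          ∑ i, (a i v : ZMod (m v)) * sval (fun e => f i e v) w.1 * ∏ t, w.2 t ^ M i t = 0}
            else 0) := by
  have h := stop (n := n) (b := 1) (k := 1) (d := d) (A := fun _ => A) (q := fun _ => q)
    (s := s) (u := fun _ => r) (fun _ => P) (fun _ => hP) (fun _ => M) (fun g h1 h2 j i => ?_)
    (fun _ => a) (fun _ => ha) (fun _ i _ => f i) (fun _ i _ => hf i) m hm
  · refine (congrArg (DFun n) (funext fun v => ?_)).mp h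
    have h1 : Gd (b := 1) (A := fun _ => A) (q := fun _ => q) (fun _ => P) v (m v) ↔
        Squarefree (m v) ∧ ∀ p, p.Prime → p ∣ m v → Cv p (fun e x => P e x v) := by
      refine and_congr_right fun _ => forall_congr' fun p => forall_congr' fun _ =>
        forall_congr' fun _ => ⟨fun h => h 0, fun h _ => h⟩
    refine if_congr h1 ?_ rfl
    unfold Ls
    refine Nat.card_congr
      { toFun := fun w => ⟨(w.1.1 0, w.1.2), fun e => w.2.1 0 e, ?_⟩
        invFun := fun w => ⟨(fun _ => w.1.1, w.1.2), fun _ e => w.2.1 e, fun _ => ?_⟩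
        left_inv := ?_
        right_inv := fun w => rfl }
    · have h2 := w.2.2 0
      simp only [cs, Fin.prod_univ_one] at h2
      exact h2
    · have h2 := w.2.2
      simp only [cs, Fin.prod_univ_one]
      exact h2
    · rintro ⟨⟨z, x⟩, hz, hx⟩
      apply Subtype.ext
      refine Prod.ext ?_ rfl
      funext l
      rw [Subsingleton.elim l 0]
  · rw [Subsingleton.elim j 0]
    refine aff_to hM (g 0) (h1 0) (fun t => ?_) i
    have h3 := h2 t
    rwa [Fin.sum_univ_one] at h3

open scoped Classical in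
/-- the surfaces `y ^ 2 = x ^ 3 + a(z) x` over the curve `P = 0` -/
theorem ex_surface {n A q d : ℕ} (P : Fin q → (Fin A → Fin (d + 1)) → (Fin n → ℕ) → ℕ)
    (hP : ∀ e x, DFun n (P e x)) (a : (Fin A → Fin (d + 1)) → (Fin n → ℕ) → ℕ)
    (ha : ∀ e, DFun n (a e)) (m : (Fin n → ℕ) → ℕ) (hm : DFun n m) :
    DFun n (fun v => if Squarefree (m v) ∧ ∀ p, p.Prime → p ∣ m v → Cv p (fun e x => P e x v) then
      Nat.card {w : (Fin A → ZMod (m v)) × (Fin 2 → ZMod (m v)) //
        (∀ e, sval (fun x => P e x v) w.1 = 0) ∧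
          w.2 1 ^ 2 = w.2 0 ^ 3 + sval (fun e => a e v) w.1 * w.2 0} else 0) := by
  have hM : AffineIndependent ℚ (fun i : Fin 3 => fun t : Fin 2 =>
      (((![![0, 2], ![3, 0], ![1, 0]] : Fin 3 → Fin 2 → ℕ) i t : ℕ) : ℚ)) := by
    refine aff_of fun w hw h => ?_
    have h0 := h 0
    have h1 := h 1
    simp only [Fin.sum_univ_succ, Fin.sum_univ_zero] at hw h0 h1
    simp at hw h0 h1
    intro i
    fin_cases i
    · exact h1
    · simp
      linarith
    · simp
      linarith
  have h := ex_one P hP (![![0, 2], ![3, 0], ![1, 0]] : Fin 3 → Fin 2 → ℕ) hM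
    (![fun v => m v - 1, fun _ => 1, fun _ => 1]) (fun i => by
      fin_cases i
      · exact DFun.sub hm (DFun.const 1)
      · exact DFun.const 1
      · exact DFun.const 1)
    (![fun e _ => if e = 0 then 1 else 0, fun e _ => if e = 0 then 1 else 0, a])
    (fun i e => by
      fin_cases i
      · exact cst_dfun (DFun.const 1) e
      · exact cst_dfun (DFun.const 1) e
      · exact ha e) m hm
  refine (congrArg (DFun n) (funext fun v => ?_)).mp h
  by_cases hv : Squarefree (m v) ∧ ∀ p, p.Prime → p ∣ m v → Cv p (fun e x => P e x v)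
  · rw [if_pos hv, if_pos hv]
    refine Nat.card_congr (Equiv.subtypeEquivRight fun w => and_congr_right fun _ => ?_)
    rw [Fin.sum_univ_three]
    simp only [Fin.prod_univ_two]
    change ((m v - 1 : ℕ) : ZMod (m v)) * sval (fun e => if e = 0 then 1 else 0) w.1 *
        (w.2 0 ^ 0 * w.2 1 ^ 2) +
      ((1 : ℕ) : ZMod (m v)) * sval (fun e => if e = 0 then 1 else 0) w.1 *
        (w.2 0 ^ 3 * w.2 1 ^ 0) +
      ((1 : ℕ) : ZMod (m v)) * sval (fun e => a e v) w.1 * (w.2 0 ^ 1 * w.2 1 ^ 0) = 0 ↔ _
    rw [sval_one, cast_pred hv.1.ne_zero, Nat.cast_one]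
    constructor
    · intro h
      linear_combination -h
    · intro h
      linear_combination -h
  · rw [if_neg hv, if_neg hv]

open scoped Classical in
/-- the hypersurfaces `y ^ N = a f₁(z₁) ⋯ f_s(z_s)`, `f_l` of any degree with coefficients in `D_n` -/
theorem ex_prod {n s d N : ℕ} (hN : N ≠ 0) (a : (Fin n → ℕ) → ℕ) (ha : DFun n a)
    (c : Fin s → Fin (d + 1) → (Fin n → ℕ) → ℕ) (hc : ∀ l i, DFun n (c l i))
    (m : (Fin n → ℕ) → ℕ) (hm : DFun n m) :
    DFun n (fun v => if Squarefree (m v) then
      Nat.card {w : (Fin s → ZMod (m v)) × ZMod (m v) // w.2 ^ N =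
        (a v : ZMod (m v)) * ∏ l, ∑ i, (c l i v : ZMod (m v)) * w.1 l ^ (i : ℕ)} else 0) := by
  have h := stop (n := n) (b := s) (k := 1) (d := d) (A := fun _ => 1) (q := fun _ => 0)
    (s := 1) (u := fun _ => 2) (fun _ _ _ _ => 0) (fun _ _ _ => DFun.const 0)
    (fun _ => ![![N], ![0]]) (fun g h1 h2 j i => ?_) (fun _ => ![fun v => m v - 1, a])
    (fun j i => by
      fin_cases i
      · exact DFun.sub hm (DFun.const 1)
      · exact ha)
    (fun _ => ![fun _ e _ => if e = 0 then 1 else 0, fun l e v => c l (e 0) v])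
    (fun j i l e => by
      fin_cases i
      · exact cst_dfun (DFun.const 1) e
      · exact hc l _) m hm
  · refine (congrArg (DFun n) (funext fun v => ?_)).mp h
    by_cases hv : Squarefree (m v)
    · rw [if_pos hv, if_pos ((good_iff (fun _ => le_rfl) _ v (m v)).2 hv)]
      have hx : ∀ (z : Fin s → Fin 1 → ZMod (m v)) (y : Fin 1 → ZMod (m v)),
          ∑ i : Fin 2, cs (k := 1) (u := fun _ => 2) (b := s) (A := fun _ => 1)
            (fun _ => ![fun v => m v - 1, a])
            (fun _ => ![fun _ e _ => if e = 0 then 1 else 0, fun l e v => c l (e 0) v]) v z 0 i *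
            ∏ t : Fin 1, y t ^ (![![N], ![0]] : Fin 2 → Fin 1 → ℕ) i t = 0 ↔
          y 0 ^ N = (a v : ZMod (m v)) * ∏ l, ∑ i, (c l i v : ZMod (m v)) *
            z l 0 ^ (i : ℕ) := by
        intro z y
        rw [Fin.sum_univ_two]
        simp only [Fin.prod_univ_one, cs]
        change ((m v - 1 : ℕ) : ZMod (m v)) *
            (∏ l : Fin s, sval (fun e => if e = 0 then 1 else 0) (z l)) * y 0 ^ N +
          (a v : ZMod (m v)) * (∏ l : Fin s, sval (fun e : Fin 1 → Fin (d + 1) => c l (e 0) v)
            (z l)) * y 0 ^ 0 = 0 ↔ _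
        have h5 : ∀ l : Fin s, sval (fun e : Fin 1 → Fin (d + 1) => c l (e 0) v) (z l) =
            ∑ i, (c l i v : ZMod (m v)) * z l 0 ^ (i : ℕ) := fun l =>
          sval_poly (fun i => c l i v) (z l)
        simp only [h5, sval_one, Nat.cast_one, Finset.prod_const_one, mul_one, pow_zero,
          cast_pred hv.ne_zero]
        constructor
        · intro h
          linear_combination -h
        · intro h
          linear_combination -h
      unfold Ls
      refine Nat.card_congr
        { toFun := fun w => ⟨(fun l => w.1.1 l 0, w.1.2 0), ?_⟩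
          invFun := fun w => ⟨(fun l _ => w.1.1 l, fun _ => w.1.2),
            fun _ e => e.elim0, fun j => ?_⟩
          left_inv := fun w => ?_
          right_inv := fun w => rfl }
      · exact (hx _ _).1 (w.2.2 0)
      · rw [Subsingleton.elim j 0]
        exact (hx _ _).2 w.2
      · apply Subtype.ext
        refine Prod.ext ?_ ?_
        · funext l i
          rw [Subsingleton.elim i 0]
        · funext i
          rw [Subsingleton.elim i 0]
    · rw [if_neg hv, if_neg fun h => hv h.1]
  · have h3 := h2 0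
    rw [Fin.sum_univ_one, Fin.sum_univ_two] at h3
    have h4 : g 0 0 * (N : ℚ) + g 0 1 * ((0 : ℕ) : ℚ) = 0 := h3
    rw [Nat.cast_zero, mul_zero, add_zero] at h4
    have h5 : g 0 0 = 0 := (mul_eq_zero.1 h4).resolve_right (Nat.cast_ne_zero.2 hN)
    have h6 := h1 0
    rw [Fin.sum_univ_two, h5, zero_add] at h6
    rw [Subsingleton.elim j 0]
    fin_cases i
    · exact h5
    · exact h6

/-- the sizes of the two equations of `ex_tower` -/
private def uT : Fin 2 → ℕ := ![4, 2]

/-- the exponents of `ex_tower`: unknowns `x`, `y`, `z`, `w`, equations `w = y ^ 3 + a z ^ 5 + c(t)`, `x ^ 2 = w y` -/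
private def MT (j : Fin 2) : Fin (uT j) → Fin 4 → ℕ :=
  Fin.cases (motive := fun j => Fin (uT j) → Fin 4 → ℕ)
    (![![0, 0, 0, 1], ![0, 3, 0, 0], ![0, 0, 5, 0], ![0, 0, 0, 0]] : Fin 4 → Fin 4 → ℕ)
    (fun j => Fin.cases (motive := fun j => Fin (uT (Fin.succ j)) → Fin 4 → ℕ)
      (![![2, 0, 0, 0], ![0, 1, 0, 1]] : Fin 2 → Fin 4 → ℕ) (fun j => j.elim0) j) j

open scoped Classical in
/-- the threefolds `x ^ 2 = y (y ^ 3 + a z ^ 5 + c(t))`, `c` of any degree with coefficients in `D_n` (two equations with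
common unknowns) -/
theorem ex_tower {n d : ℕ} (a : (Fin n → ℕ) → ℕ) (ha : DFun n a)
    (c : Fin (d + 1) → (Fin n → ℕ) → ℕ) (hc : ∀ i, DFun n (c i))
    (m : (Fin n → ℕ) → ℕ) (hm : DFun n m) :
    DFun n (fun v => if Squarefree (m v) then
      Nat.card {w : ZMod (m v) × (Fin 3 → ZMod (m v)) // w.2 0 ^ 2 = w.2 1 * (w.2 1 ^ 3 +
        (a v : ZMod (m v)) * w.2 2 ^ 5 + ∑ i, (c i v : ZMod (m v)) * w.1 ^ (i : ℕ))} else 0) := by
  set aT : ∀ j, Fin (uT j) → (Fin n → ℕ) → ℕ := fun j =>
    Fin.cases (motive := fun j => Fin (uT j) → (Fin n → ℕ) → ℕ)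
      (![fun v => m v - 1, fun _ => 1, a, fun _ => 1] : Fin 4 → (Fin n → ℕ) → ℕ)
      (fun j => Fin.cases (motive := fun j => Fin (uT (Fin.succ j)) → (Fin n → ℕ) → ℕ)
        (![fun v => m v - 1, fun _ => 1] : Fin 2 → (Fin n → ℕ) → ℕ) (fun j => j.elim0) j) j
    with haT
  set o : Fin 1 → (Fin 1 → Fin (d + 1)) → (Fin n → ℕ) → ℕ := fun _ e _ => if e = 0 then 1 else 0
    with ho
  set fT : ∀ j, Fin (uT j) → Fin 1 → (Fin 1 → Fin (d + 1)) → (Fin n → ℕ) → ℕ := fun j =>
    Fin.cases (motive := fun j => Fin (uT j) → Fin 1 → (Fin 1 → Fin (d + 1)) → (Fin n → ℕ) → ℕ)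
      (![o, o, o, fun _ e v => c (e 0) v] :
        Fin 4 → Fin 1 → (Fin 1 → Fin (d + 1)) → (Fin n → ℕ) → ℕ)
      (fun j => Fin.cases (motive := fun j => Fin (uT (Fin.succ j)) → Fin 1 →
          (Fin 1 → Fin (d + 1)) → (Fin n → ℕ) → ℕ)
        (![o, o] : Fin 2 → Fin 1 → (Fin 1 → Fin (d + 1)) → (Fin n → ℕ) → ℕ)
        (fun j => j.elim0) j) j with hfT
  have hod : ∀ l e, DFun n (o l e) := fun l e => cst_dfun (DFun.const 1) e
  have h := stop (n := n) (b := 1) (k := 2) (d := d) (A := fun _ => 1) (q := fun _ => 0)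
    (s := 4) (u := uT) (fun _ _ _ _ => 0) (fun _ _ _ => DFun.const 0) MT
    (fun g h1 h2 => ?_) aT (fun j i => ?_) fT (fun j i l e => ?_) m hm
  · refine (congrArg (DFun n) (funext fun v => ?_)).mp h
    by_cases hv : Squarefree (m v)
    · rw [if_pos hv, if_pos ((good_iff (fun _ => le_rfl) _ v (m v)).2 hv)]
      have ho1 : ∀ z : Fin 1 → ZMod (m v), sval (fun e => o 0 e v) z = 1 := fun z =>
        (sval_one 1 z).trans Nat.cast_one
      have hx0 : ∀ (z : Fin 1 → Fin 1 → ZMod (m v)) (y : Fin 4 → ZMod (m v)),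
          ∑ i, cs (k := 2) (u := uT) (b := 1) (A := fun _ => 1) aT fT v z 0 i *
            ∏ t, y t ^ MT 0 i t = 0 ↔ y 3 = y 1 ^ 3 + (a v : ZMod (m v)) * y 2 ^ 5 +
              ∑ i, (c i v : ZMod (m v)) * z 0 0 ^ (i : ℕ) := by
        intro z y
        have h5 : sval (fun e : Fin 1 → Fin (d + 1) => c (e 0) v) (z 0) =
            ∑ i, (c i v : ZMod (m v)) * z 0 0 ^ (i : ℕ) := sval_poly (fun i => c i v) (z 0)
        have h6 : ∑ i, cs (k := 2) (u := uT) (b := 1) (A := fun _ => 1) aT fT v z 0 i *
            ∏ t, y t ^ MT 0 i t =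
          ((m v - 1 : ℕ) : ZMod (m v)) * (∏ l : Fin 1, sval (fun e => o 0 e v) (z l)) *
            ∏ t, y t ^ (![0, 0, 0, 1] : Fin 4 → ℕ) t +
          ((1 : ℕ) : ZMod (m v)) * (∏ l : Fin 1, sval (fun e => o 0 e v) (z l)) *
            ∏ t, y t ^ (![0, 3, 0, 0] : Fin 4 → ℕ) t +
          (a v : ZMod (m v)) * (∏ l : Fin 1, sval (fun e => o 0 e v) (z l)) *
            ∏ t, y t ^ (![0, 0, 5, 0] : Fin 4 → ℕ) t +
          ((1 : ℕ) : ZMod (m v)) * (∏ l : Fin 1,
            sval (fun e : Fin 1 → Fin (d + 1) => c (e 0) v) (z l)) *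
            ∏ t, y t ^ (![0, 0, 0, 0] : Fin 4 → ℕ) t := Fin.sum_univ_four _
        rw [h6]
        simp only [Fin.prod_univ_one, Fin.prod_univ_four, ho1, h5, cast_pred hv.ne_zero]
        simp
        constructor
        · intro h
          linear_combination -h
        · intro h
          linear_combination -h
      have hx1 : ∀ (z : Fin 1 → Fin 1 → ZMod (m v)) (y : Fin 4 → ZMod (m v)),
          ∑ i, cs (k := 2) (u := uT) (b := 1) (A := fun _ => 1) aT fT v z 1 i *
            ∏ t, y t ^ MT 1 i t = 0 ↔ y 0 ^ 2 = y 1 * y 3 := by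
        intro z y
        have h6 : ∑ i, cs (k := 2) (u := uT) (b := 1) (A := fun _ => 1) aT fT v z 1 i *
            ∏ t, y t ^ MT 1 i t =
          ((m v - 1 : ℕ) : ZMod (m v)) * (∏ l : Fin 1, sval (fun e => o 0 e v) (z l)) *
            ∏ t, y t ^ (![2, 0, 0, 0] : Fin 4 → ℕ) t +
          ((1 : ℕ) : ZMod (m v)) * (∏ l : Fin 1, sval (fun e => o 0 e v) (z l)) *
            ∏ t, y t ^ (![0, 1, 0, 1] : Fin 4 → ℕ) t := Fin.sum_univ_two _
        rw [h6]
        simp only [Fin.prod_univ_one, Fin.prod_univ_four, ho1, cast_pred hv.ne_zero]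
        simp
        constructor
        · intro h
          linear_combination -h
        · intro h
          linear_combination -h
      unfold Ls
      refine Nat.card_congr
        { toFun := fun w => ⟨(w.1.1 0 0, ![w.1.2 0, w.1.2 1, w.1.2 2]), ?_⟩
          invFun := fun w => ⟨(fun _ _ => w.1.1, ![w.1.2 0, w.1.2 1, w.1.2 2,
            w.1.2 1 ^ 3 + (a v : ZMod (m v)) * w.1.2 2 ^ 5 +
              ∑ i, (c i v : ZMod (m v)) * w.1.1 ^ (i : ℕ)]), fun _ e => e.elim0, fun j => ?_⟩
          left_inv := fun w => ?_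
          right_inv := fun w => ?_ }
      · have h7 := (hx0 _ _).1 (w.2.2 0)
        have h8 := (hx1 _ _).1 (w.2.2 1)
        rw [h7] at h8
        exact h8
      · refine Fin.cases ?_ (fun j => Fin.cases ?_ (fun j => j.elim0) j) j
        · exact (hx0 _ _).2 rfl
        · exact (hx1 _ _).2 w.2
      · have h7 := (hx0 _ _).1 (w.2.2 0)
        apply Subtype.ext
        refine Prod.ext ?_ ?_
        · funext l i
          rw [Subsingleton.elim l 0, Subsingleton.elim i 0]
        · funext t
          fin_cases t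
          · rfl
          · rfl
          · rfl
          · exact h7.symm
      · apply Subtype.ext
        refine Prod.ext rfl ?_
        funext t
        fin_cases t <;> rfl
    · rw [if_neg hv, if_neg fun h => hv h.1]
  · have e0 : ∀ t, ∑ j, ∑ i, g j i * (MT j i t : ℚ) =
        (g 0 (0 : Fin 4) * ((![0, 0, 0, 1] : Fin 4 → ℕ) t : ℚ) +
          g 0 (1 : Fin 4) * ((![0, 3, 0, 0] : Fin 4 → ℕ) t : ℚ) +
          g 0 (2 : Fin 4) * ((![0, 0, 5, 0] : Fin 4 → ℕ) t : ℚ) +
          g 0 (3 : Fin 4) * ((![0, 0, 0, 0] : Fin 4 → ℕ) t : ℚ)) +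
        (g 1 (0 : Fin 2) * ((![2, 0, 0, 0] : Fin 4 → ℕ) t : ℚ) +
          g 1 (1 : Fin 2) * ((![0, 1, 0, 1] : Fin 4 → ℕ) t : ℚ)) := by
      intro t
      rw [Fin.sum_univ_two]
      exact congrArg₂ (· + ·) (Fin.sum_univ_four _) (Fin.sum_univ_two _)
    have e1 : g 0 (0 : Fin 4) + g 0 (1 : Fin 4) + g 0 (2 : Fin 4) + g 0 (3 : Fin 4) = 0 :=
      (Fin.sum_univ_four _).symm.trans (h1 0)
    have e2 : g 1 (0 : Fin 2) + g 1 (1 : Fin 2) = 0 := (Fin.sum_univ_two _).symm.trans (h1 1)
    have f0 := (e0 0).symm.trans (h2 0)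
    have f1 := (e0 1).symm.trans (h2 1)
    have f2 := (e0 2).symm.trans (h2 2)
    have f3 := (e0 3).symm.trans (h2 3)
    simp at f0 f1 f2 f3
    have k1 : g 1 (0 : Fin 2) = 0 := f0
    have k2 : g 1 (1 : Fin 2) = 0 := by
      rw [k1, zero_add] at e2
      exact e2
    have k3 : g 0 (0 : Fin 4) = 0 := by
      rw [k2, add_zero] at f3
      exact f3
    have k4 : g 0 (1 : Fin 4) = 0 := by
      rw [k2, add_zero] at f1
      linarith
    have k5 : g 0 (2 : Fin 4) = 0 := f2
    have k6 : g 0 (3 : Fin 4) = 0 := by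
      rw [k3, k4, k5] at e1
      linarith
    intro j
    refine Fin.cases ?_ (fun j => Fin.cases ?_ (fun j => j.elim0) j) j
    · intro i
      have : ∀ i : Fin 4, g 0 i = 0 := by
        intro i
        fin_cases i
        · exact k3
        · exact k4
        · exact k5
        · exact k6
      exact this i
    · intro i
      have : ∀ i : Fin 2, g 1 i = 0 := by
        intro i
        fin_cases i
        · exact k1
        · exact k2
      exact this i
  · revert i
    refine Fin.cases ?_ (fun j => Fin.cases ?_ (fun j => j.elim0) j) j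
    · intro i
      have : ∀ i : Fin 4, DFun n (aT 0 i) := by
        intro i
        fin_cases i
        · exact DFun.sub hm (DFun.const 1)
        · exact DFun.const 1
        · exact ha
        · exact DFun.const 1
      exact this i
    · intro i
      have : ∀ i : Fin 2, DFun n (aT 1 i) := by
        intro i
        fin_cases i
        · exact DFun.sub hm (DFun.const 1)
        · exact DFun.const 1
      exact this i
  · revert i
    refine Fin.cases ?_ (fun j => Fin.cases ?_ (fun j => j.elim0) j) j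
    · intro i
      have : ∀ i : Fin 4, DFun n (fT 0 i l e) := by
        intro i
        fin_cases i
        · exact hod l e
        · exact hod l e
        · exact hod l e
        · exact hc _
      exact this i
    · intro i
      have : ∀ i : Fin 2, DFun n (fT 1 i l e) := by
        intro i
        fin_cases i
        · exact hod l e
        · exact hod l e
      exact this i

end Pool.Agent.IsoE
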