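import Pool.Agent.CvQ.FvF

/-!
# Normal forms of Feferman and Vaught with relations of a given kind

`FVC C R`: the relation `R m x` has a normal form (`CvQ.FV`) with relations in the class `C`. `fvc_all`: finite conjunctions,
if `C` is closed under conjunctions. `fvp`: for formulas `φ l`, `l : Fin b`, in disjoint variables (and common parameters)
the relations can be chosen as conjunctions of relations in the variables of the single formulas.
-/

set_option autoImplicit false

noncomputable section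

namespace Pool.Agent.IsoE

open Finset Pool.Agent.PRc Pool.Agent.CvQ FirstOrder

variable {ι : Type}

/-- normal forms with relations in a class -/
def FVC (C : FR ι → Prop) (R : ℕ → (ι → ℕ) → Prop) : Prop :=
  ∃ (k B : ℕ) (θ : Fin k → FR ι) (A : Set (Fin k → ℕ)), (∀ i, C (θ i)) ∧ Prt θ ∧
    ∀ m, Squarefree m → ∀ x, R m x ↔ cap B θ m x ∈ A

private theorem fp_and_P {θ θ' : FR ι} {p : ℕ} (x : ι → ℕ) :
    FP (fun K _ y => θ K y ∧ θ' K y) p x ↔ FP θ p x ∧ FP θ' p x := by
  constructor
  · rintro ⟨hp, h, h'⟩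
    exact ⟨⟨hp, h⟩, ⟨hp, h'⟩⟩
  · rintro ⟨⟨hp, h⟩, ⟨_, h'⟩⟩
    exact ⟨hp, h, h'⟩

private theorem fp_ex_P {k : ℕ} {θ : Fin k → FR ι} (hθ : Prt θ) {p : ℕ} (hp : p.Prime)
    (x : ι → ℕ) : ∃! i, FP (θ i) p x := by
  have := Fact.mk hp
  obtain ⟨i, hi, hu⟩ := hθ (ZMod p) (fun i => (x i : ZMod p))
  refine ⟨i, ⟨hp, hi⟩, ?_⟩
  rintro j ⟨_, hj⟩
  exact hu j hj

private theorem min_sum_P {k : ℕ} (B B' : ℕ) (n : Fin k → ℕ) (h : B ≤ B') :
    min B (∑ j, min B' (n j)) = min B (∑ j, n j) := by
  by_cases hn : ∀ j, n j ≤ B'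
  · rw [Finset.sum_congr rfl fun j _ => min_eq_right (hn j)]
  · push Not at hn
    obtain ⟨j, hj⟩ := hn
    have h1 : min B' (n j) ≤ ∑ j, min B' (n j) :=
      Finset.single_le_sum (f := fun j => min B' (n j)) (fun _ _ => Nat.zero_le _)
        (Finset.mem_univ j)
    have h2 : n j ≤ ∑ j, n j :=
      Finset.single_le_sum (f := n) (fun _ _ => Nat.zero_le _) (Finset.mem_univ j)
    rw [min_eq_left hj.le] at h1
    rw [min_eq_left (h.trans h1), min_eq_left (h.trans (hj.le.trans h2))]

open scoped Classical in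
private theorem card_split_P {k : ℕ} (s : Finset ℕ) (P : ℕ → Prop) (Q : Fin k → ℕ → Prop)
    (h : ∀ p ∈ s, ∃! j, Q j p) : ∑ j, #{p ∈ s | P p ∧ Q j p} = #{p ∈ s | P p} := by
  simp only [Finset.card_filter]
  rw [Finset.sum_comm]
  refine Finset.sum_congr rfl fun p hp => ?_
  obtain ⟨j, hj, hu⟩ := h p hp
  rw [Finset.sum_eq_single j]
  · simp [hj]
  · intro i _ hi
    have : ¬ Q i p := fun hq => hi (hu i hq)
    simp [this]
  · intro hj'
    exact absurd (Finset.mem_univ j) hj'

theorem fvc_and {C : FR ι → Prop}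
    (hC : ∀ θ θ' : FR ι, C θ → C θ' → C (fun K _ y => θ K y ∧ θ' K y))
    {R R' : ℕ → (ι → ℕ) → Prop} (h : FVC C R) (h' : FVC C R') :
    FVC C (fun m x => R m x ∧ R' m x) := by
  classical
  obtain ⟨k, B, θ, A, h1, h2, h3⟩ := h
  obtain ⟨k', B', θ', A', h1', h2', h3'⟩ := h'
  let e : Fin k × Fin k' ≃ Fin (k * k') := finProdFinEquiv
  refine ⟨k * k', B + B', fun l K _ y => θ (e.symm l).1 K y ∧ θ' (e.symm l).2 K y,
    {c | (fun i => min B (∑ j, c (e (i, j)))) ∈ A ∧
      (fun j => min B' (∑ i, c (e (i, j)))) ∈ A'}, ?_, ?_, ?_⟩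
  · intro l
    exact hC _ _ (h1 _) (h1' _)
  · intro K _ x
    obtain ⟨i, hi, hu⟩ := h2 K x
    obtain ⟨j, hj, hv⟩ := h2' K x
    refine ⟨e (i, j), ?_, ?_⟩
    · simp only [Equiv.symm_apply_apply]
      exact ⟨hi, hj⟩
    · rintro l ⟨hl, hl'⟩
      rw [← e.apply_symm_apply l]
      congr 1
      exact Prod.ext (hu _ hl) (hv _ hl')
  · intro m hm x
    have E : ∀ i j, cap (B + B') (fun l K _ y => θ (e.symm l).1 K y ∧ θ' (e.symm l).2 K y)
        m x (e (i, j)) = min (B + B') #{p ∈ m.primeFactors | FP (θ i) p x ∧ FP (θ' j) p x} := by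
      intro i j
      show min (B + B') _ = _
      simp only [Equiv.symm_apply_apply, fp_and_P]
    have hA : (fun i => min B (∑ j, cap (B + B')
        (fun l K _ y => θ (e.symm l).1 K y ∧ θ' (e.symm l).2 K y) m x (e (i, j)))) =
        cap B θ m x := by
      funext i
      simp only [E]
      rw [min_sum_P B (B + B') _ (Nat.le_add_right B B'),
        card_split_P m.primeFactors (fun p => FP (θ i) p x) (fun j p => FP (θ' j) p x)
          fun p hp => fp_ex_P h2' (Nat.prime_of_mem_primeFactors hp) x]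
      rfl
    have hA' : (fun j => min B' (∑ i, cap (B + B')
        (fun l K _ y => θ (e.symm l).1 K y ∧ θ' (e.symm l).2 K y) m x (e (i, j)))) =
        cap B' θ' m x := by
      funext j
      simp only [E, and_comm (a := FP (θ _) _ x)]
      rw [min_sum_P B' (B + B') _ (Nat.le_add_left B' B),
        card_split_P m.primeFactors (fun p => FP (θ' j) p x) (fun i p => FP (θ i) p x)
          fun p hp => fp_ex_P h2 (Nat.prime_of_mem_primeFactors hp) x]
      rfl
    show _ ↔ _ ∧ _
    rw [hA, hA']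
    exact and_congr (h3 m hm x) (h3' m hm x)

theorem fvc_congr {C : FR ι → Prop} {R R' : ℕ → (ι → ℕ) → Prop}
    (h : ∀ m, Squarefree m → ∀ x, R m x ↔ R' m x) (hR : FVC C R) : FVC C R' := by
  obtain ⟨k, B, θ, A, h1, h2, h3⟩ := hR
  exact ⟨k, B, θ, A, h1, h2, fun m hm x => (h m hm x).symm.trans (h3 m hm x)⟩

theorem fvc_true {C : FR ι → Prop} (hC : C (fun _ _ _ => True)) :
    FVC C (fun _ (_ : ι → ℕ) => True) := by
  refine ⟨1, 0, fun _ _ _ _ => True, Set.univ, fun _ => hC, fun K _ x => ⟨0, trivial, fun j _ =>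
    Subsingleton.elim _ _⟩, fun m _ x => ⟨fun _ => Set.mem_univ _, fun _ => trivial⟩⟩

theorem fvc_all {C : FR ι → Prop}
    (hC : ∀ θ θ' : FR ι, C θ → C θ' → C (fun K _ y => θ K y ∧ θ' K y))
    (hT : C (fun _ _ _ => True)) {L : Type} [Fintype L] {R : L → ℕ → (ι → ℕ) → Prop}
    (h : ∀ l, FVC C (R l)) : FVC C (fun m x => ∀ l, R l m x) := by
  classical
  have h1 : ∀ T : Finset L, FVC C (fun m x => ∀ l ∈ T, R l m x) := by
    intro T
    induction T using Finset.induction_on with
    | empty =>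
      refine fvc_congr (fun m _ x => ?_) (fvc_true hT)
      simp
    | insert l T hl ih =>
      refine fvc_congr (fun m _ x => ?_) (fvc_and hC (h l) ih)
      simp
  refine fvc_congr (fun m _ x => ?_) (h1 Finset.univ)
  simp

variable {b t : ℕ} {A : Fin b → ℕ}

/-- the variables of the formula number `l` -/
def rs {K : Type} (l : Fin b) (y : ((l : Fin b) × Fin (A l)) ⊕ Fin t → K) :
    Fin (A l) ⊕ Fin t → K :=
  Sum.elim (fun i => y (Sum.inl ⟨l, i⟩)) fun i => y (Sum.inr i)

/-- conjunctions of relations in the variables of the single formulas -/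
def PK (θ : FR (((l : Fin b) × Fin (A l)) ⊕ Fin t)) : Prop :=
  ∃ θ' : ∀ l, FR (Fin (A l) ⊕ Fin t), (∀ l, PRQ (θ' l)) ∧
    ∀ (K : Type) [Field K] (y : ((l : Fin b) × Fin (A l)) ⊕ Fin t → K),
      θ K y ↔ ∀ l, θ' l K (rs l y)

private theorem prq_true {ι : Type} : PRQ (fun (K : Type) [Field K] (_ : ι → K) => True) :=
  (PRQ.base PRD.false).not.congr fun K _ x => by simp

theorem pk_and (θ θ' : FR (((l : Fin b) × Fin (A l)) ⊕ Fin t)) (h : PK θ) (h' : PK θ') :
    PK (fun K _ y => θ K y ∧ θ' K y) := by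
  obtain ⟨g, hg, e⟩ := h
  obtain ⟨g', hg', e'⟩ := h'
  refine ⟨fun l K _ x => g l K x ∧ g' l K x, fun l => (hg l).and (hg' l), fun K _ y => ?_⟩
  show θ K y ∧ θ' K y ↔ _
  rw [e K y, e' K y, forall_and]

theorem pk_true : PK (b := b) (t := t) (A := A) (fun _ _ _ => True) :=
  ⟨fun _ _ _ _ => True, fun _ => prq_true, fun K _ y => by simp⟩

theorem fvp (φ : ∀ l, Language.ring.Formula (Fin (A l) ⊕ Fin t)) :
    FVC PK (fun m (y : ((l : Fin b) × Fin (A l)) ⊕ Fin t → ℕ) => ∀ l, rf (φ l) m (rs l y)) := by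
  classical
  refine fvc_all pk_and pk_true fun l => ?_
  obtain ⟨k, B, θ, Z, h1, h2, h3⟩ := rf_fv (φ l)
  refine ⟨k, B, fun i K _ y => θ i K (rs l y), Z, fun i => ?_, fun K _ x => h2 K (rs l x),
    fun m hm x => ?_⟩
  · refine ⟨Function.update (fun _ _ _ _ => True) l (θ i), fun l' => ?_, fun K _ y => ?_⟩
    · by_cases h : l' = l
      · subst h
        rw [Function.update_self]
        exact h1 i
      · rw [Function.update_of_ne h]
        exact prq_true
    · constructor
      · intro hy l'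
        by_cases h : l' = l
        · subst h
          rw [Function.update_self]
          exact hy
        · rw [Function.update_of_ne h]
          trivial
      · intro hy
        have := hy l
        rwa [Function.update_self] at this
  · have e : cap B (fun i (K : Type) [Field K] (y : ((l : Fin b) × Fin (A l)) ⊕ Fin t → K) =>
        θ i K (rs l y)) m x = cap B θ m (rs l x) := by
      funext i
      unfold cap
      congr 2
      refine Finset.filter_congr fun p _ => ?_
      unfold CvQ.FP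
      refine exists_congr fun hp => ?_
      have := Fact.mk hp
      refine iff_of_eq (congrArg (θ i (ZMod p)) ?_)
      funext j
      rcases j with j | j <;> rfl
    rw [e]
    exact h3 m hm (rs l x)

end Pool.Agent.IsoE
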