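import Pool.Agent.IsoC.YS
import Pool.Agent.IsoV.Bund

/-!
# Weighted sums over products of curves: the local numbers

`Nz M c`: the number of the zeros of `∑ c i * ∏ x q ^ M i q`. `nz_ind`: for affinely independent exponent vectors it depends
on the coefficients modulo `N`-th powers only, and it is definable for definable coefficients. `loc`: the number of the
`z l` on curves and `x j` with `∑ c j i (z) * ∏ x j t ^ M j i t = 0`, `c j i (z) = ∏ f j i l (z l)`, is definable.
-/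

set_option autoImplicit false

noncomputable section

namespace Pool.Agent.IsoE

open Finset Polynomial Pool.Agent.PRc Pool.Agent.Grz Pool.Agent.CvS Pool.Agent.IsoC

variable {n : ℕ}

/-- the number of the zeros -/
def Nz {s r : ℕ} (M : Fin r → Fin s → ℕ) {K : Type} [Field K] (c : Fin r → K) : ℕ :=
  Nat.card {x : Fin s → K // ∑ i, c i * ∏ q, x q ^ M i q = 0}

private theorem ys_nz {s r : ℕ} (M : Fin r → Fin s → ℕ) (p : ℕ) [Fact p.Prime] (v : Fin n → ℕ)
    (t : ZMod p) (c : Fin r → ZMod p) :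
    YS M c (fun _ => Wn (n := n) (κ := Unit) (fun _ _ _ _ x => x ()) p v t) = Nz M c := by
  classical
  have e : ∀ u : ZMod p, Wn (n := n) (κ := Unit) (fun _ _ _ _ x => x ()) p v t u = 1 := by
    intro u
    unfold Wn
    rw [Nat.card_eq_one_iff_unique]
    refine ⟨⟨fun a b => ?_⟩, ⟨⟨fun _ => u, rfl⟩⟩⟩
    ext i
    exact a.2.trans b.2.symm
  unfold YS Nz
  rw [Nat.card_eq_fintype_card, Fintype.card_subtype, Finset.card_filter]
  refine Finset.sum_congr rfl fun y _ => ?_
  by_cases h : ∑ i, c i * ∏ q, y q ^ M i q = 0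
  · rw [if_pos h]
    simp only [e, Finset.prod_const_one]
    rw [if_pos h]
  · rw [if_neg h, if_neg h]

theorem nz_ind {s r : ℕ} {M : Fin r → Fin s → ℕ}
    (hM : AffineIndependent ℚ (fun i : Fin r => fun q : Fin s => (M i q : ℚ))) :
    ∃ N : ℕ, 0 < N ∧
      (∀ N' : ℕ, N ∣ N' → ∀ (p : ℕ) [Fact p.Prime] (c ζ : Fin r → ZMod p), (∀ i, ζ i ≠ 0) →
        Nz M (fun i => c i * ζ i ^ N') = Nz M c) ∧
      ∀ a : Fin r → ℕ → (Fin n → ℕ) → ℕ, (∀ i, DV (a i)) → ∃ f : ℕ → (Fin n → ℕ) → ℕ, DV f ∧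
        ∀ (p : ℕ) [Fact p.Prime] (v : Fin n → ℕ), f p v = Nz M (fun i => (a i p v : ZMod p)) := by
  obtain ⟨N, hN, h1, h2⟩ := ys_ind (n := n) (κ := fun _ : Fin s => Unit)
    (E := fun _ => fun _ _ _ _ x => x ()) (fun _ => ind_var) hM
  refine ⟨N, hN, fun N' hN' p _ c ζ hζ => ?_, fun a ha => ?_⟩
  · rw [← ys_nz M p (fun _ : Fin n => 0) 0, ← ys_nz M p (fun _ : Fin n => 0) 0]
    exact h1 N' hN' p _ 0 c ζ hζ
  · obtain ⟨f, hf, h3⟩ := (h2 a ha).eval (q := fun _ _ _ => 0) fun _ => DV.const 0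
    refine ⟨f, hf, fun p _ v => ?_⟩
    rw [h3 p v]
    exact ys_nz M p v _ _

variable {b k d : ℕ} {A q : Fin b → ℕ} {s r : Fin k → ℕ}

/-- the coefficients of the equations -/
def cz (f : ∀ j, Fin (r j) → ∀ l, (Fin (A l) → Fin (d + 1)) → (Fin n → ℕ) → ℕ) (v : Fin n → ℕ)
    {R : Type} [CommRing R] (z : ∀ l, Fin (A l) → R) (j : Fin k) (i : Fin (r j)) : R :=
  ∏ l, sval (fun e => f j i l e v) (z l)

open scoped Classical in
/-- the condition on the classes of the factors -/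
theorem cls_sm (f : ∀ j, Fin (r j) → ∀ l, (Fin (A l) → Fin (d + 1)) → (Fin n → ℕ) → ℕ)
    (hf : ∀ j i l e, DFun n (f j i l e)) {N : ℕ} {g : ℕ → ℕ} (hg : DFun 1 (fun w => g (w 0)))
    (κ : ∀ j, Fin (r j) → Fin b → Fin (N + 1)) (l : Fin b) :
    SM (κ := Fin (A l)) (n := n) (fun p _ v z =>
      if ∀ j i, Cl N (κ j i l) (ZMod p) ![sval (fun e => f j i l e v) z, (g p : ZMod p)]
        then 1 else 0) := by
  have h1 : PRQ (ι := Fin (A l) ⊕ (((j : Fin k) × Fin (r j)) × (Fin (A l) → Fin (d + 1)) ⊕ Unit))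
      (fun K _ x => ∀ ji : (j : Fin k) × Fin (r j), Cl N (κ ji.1 ji.2 l) K
        ![∑ e : Fin (A l) → Fin (d + 1), x (Sum.inr (Sum.inl (ji, e))) *
          ∏ i, x (Sum.inl i) ^ (e i : ℕ), x (Sum.inr (Sum.inr ()))]) := by
    refine PRQ.allF fun ji => ?_
    refine ((cl_prq N (κ ji.1 ji.2 l)).comp (G := ![fun K _ x =>
      ∑ e : Fin (A l) → Fin (d + 1), x (Sum.inr (Sum.inl (ji, e))) *
          ∏ i, x (Sum.inl i) ^ (e i : ℕ), fun K _ x => x (Sum.inr (Sum.inr ()))])
            fun a => ?_).congr fun K _ x => ?_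
    · fin_cases a
      · exact PRF.sum Finset.univ (F := fun (e : Fin (A l) → Fin (d + 1)) (K : Type) [Field K]
          (x : Fin (A l) ⊕ (((j : Fin k) × Fin (r j)) × (Fin (A l) → Fin (d + 1)) ⊕ Unit) → K) =>
            x (Sum.inr (Sum.inl (ji, e))) * ∏ i, x (Sum.inl i) ^ (e i : ℕ)) fun e _ =>
          (PRF.var _).mul (PRF.prod Finset.univ (F := fun (i : Fin (A l)) (K : Type) [Field K]
            (x : Fin (A l) ⊕ (((j : Fin k) × Fin (r j)) × (Fin (A l) → Fin (d + 1)) ⊕ Unit) → K) =>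
              x (Sum.inl i) ^ (e i : ℕ)) fun i _ => (PRF.var _).pow _)
      · exact PRF.var _
    · refine iff_of_eq (congrArg (Cl N _ K) ?_)
      funext a
      fin_cases a <;> rfl
  refine (SM.ind h1 (q := Sum.elim (fun je _ v => f je.1.1 je.1.2 l je.2 v) fun _ p _ => g p)
    ?_).congr fun p _ v z => ?_
  · rintro (je | _)
    · exact DV.par (hf _ _ _ _)
    · exact DV.one hg
  · by_cases h : ∀ j i, Cl N (κ j i l) (ZMod p) ![sval (fun e => f j i l e v) z, (g p : ZMod p)]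
    · rw [if_pos h]
      exact if_pos fun (ji : (j : Fin k) × Fin (r j)) => h ji.1 ji.2
    · rw [if_neg h]
      exact if_neg fun h' => h fun j i => h' ⟨j, i⟩

open scoped Classical in
/-- the product of the numbers of zeros as a sum over the classes of the factors -/
private theorem expand_L (M : ∀ j, Fin (r j) → Fin (s j) → ℕ) {N : ℕ} (hN : 0 < N) {p : ℕ}
    [Fact p.Prime] {g : ZMod p} (hg : Gen N g)
    (hinv : ∀ j, ∀ c ζ : Fin (r j) → ZMod p, (∀ i, ζ i ≠ 0) →
      Nz (M j) (fun i => c i * ζ i ^ N) = Nz (M j) c)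
    (F : ∀ j, Fin (r j) → Fin b → ZMod p) :
    ∏ j, Nz (M j) (fun i => ∏ l, F j i l) = ∑ κ : ∀ j, Fin (r j) → Fin b → Fin (N + 1),
      (∏ j, Nz (M j) (fun i => ∏ l, (rp (κ j i l) g : ZMod p))) *
        if ∀ j i l, Cl N (κ j i l) (ZMod p) ![F j i l, g] then 1 else 0 := by
  choose κ hκ huκ using fun j i l => cl_ex hN hg (F j i l)
  rw [Finset.sum_eq_single κ]
  · rw [if_pos hκ, mul_one]
    refine Finset.prod_congr rfl fun j _ => ?_
    choose y hy e using fun i l => cl_rep hN (hκ j i l)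
    rw [← hinv j (fun i => ∏ l, (rp (κ j i l) g : ZMod p)) (fun i => ∏ l, y i l)
      fun i => Finset.prod_ne_zero_iff.2 fun l _ => hy i l]
    congr 1
    funext i
    rw [← Finset.prod_pow, ← Finset.prod_mul_distrib]
    exact Finset.prod_congr rfl fun l _ => e i l
  · intro κ' _ hne
    rw [if_neg, mul_zero]
    intro h
    refine hne ?_
    funext j i l
    exact huκ j i l (κ' j i l) (h j i l)
  · intro h
    exact absurd (Finset.mem_univ _) h

/-- the number of the solutions -/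
def Lp (P : ∀ l, Fin (q l) → (Fin (A l) → Fin (d + 1)) → (Fin n → ℕ) → ℕ)
    (M : ∀ j, Fin (r j) → Fin (s j) → ℕ)
    (f : ∀ j, Fin (r j) → ∀ l, (Fin (A l) → Fin (d + 1)) → (Fin n → ℕ) → ℕ) (v : Fin n → ℕ)
    (R : Type) [CommRing R] : ℕ :=
  Nat.card {w : (∀ l, Fin (A l) → R) × (∀ j, Fin (s j) → R) //
    (∀ l e, sval (fun x => P l e x v) (w.1 l) = 0) ∧
      ∀ j, ∑ i, cz f v w.1 j i * ∏ t, w.2 j t ^ M j i t = 0}

open scoped Classical in
/-- the sum over the base -/
private theorem lp_sum (P : ∀ l, Fin (q l) → (Fin (A l) → Fin (d + 1)) → (Fin n → ℕ) → ℕ)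
    (M : ∀ j, Fin (r j) → Fin (s j) → ℕ)
    (f : ∀ j, Fin (r j) → ∀ l, (Fin (A l) → Fin (d + 1)) → (Fin n → ℕ) → ℕ) (v : Fin n → ℕ)
    (p : ℕ) [Fact p.Prime] : Lp P M f v (ZMod p) = ∑ z : ∀ l, Fin (A l) → ZMod p,
      if ∀ l e, sval (fun x => P l e x v) (z l) = 0 then
        ∏ j, Nz (M j) (fun i => cz f v z j i) else 0 := by
  unfold Lp
  have e : {w : (∀ l, Fin (A l) → ZMod p) × (∀ j, Fin (s j) → ZMod p) //
      (∀ l e, sval (fun x => P l e x v) (w.1 l) = 0) ∧
        ∀ j, ∑ i, cz f v w.1 j i * ∏ t, w.2 j t ^ M j i t = 0} ≃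
      Σ z : ∀ l, Fin (A l) → ZMod p, {x : ∀ j, Fin (s j) → ZMod p //
        (∀ l e, sval (fun x => P l e x v) (z l) = 0) ∧
          ∀ j, ∑ i, cz f v z j i * ∏ t, x j t ^ M j i t = 0} :=
    { toFun := fun w => ⟨w.1.1, w.1.2, w.2⟩
      invFun := fun w => ⟨(w.1, w.2.1), w.2.2⟩
      left_inv := fun _ => rfl
      right_inv := fun _ => rfl }
  rw [Nat.card_congr e, Nat.card_sigma]
  refine Finset.sum_congr rfl fun z _ => ?_
  by_cases h : ∀ l e, sval (fun x => P l e x v) (z l) = 0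
  · rw [if_pos h]
    unfold Nz
    rw [← Nat.card_pi]
    refine Nat.card_congr ?_
    refine (Equiv.subtypeEquivRight fun x => ?_).trans (Equiv.subtypePiEquivPi
      (p := fun j (x : Fin (s j) → ZMod p) => ∑ i, cz f v z j i * ∏ t, x t ^ M j i t = 0))
    exact and_iff_right h
  · rw [if_neg h, Nat.card_eq_zero]
    exact Or.inl ⟨fun x => h x.2.1⟩

theorem loc (P : ∀ l, Fin (q l) → (Fin (A l) → Fin (d + 1)) → (Fin n → ℕ) → ℕ)
    (hP : ∀ l e x, DFun n (P l e x)) (M : ∀ j, Fin (r j) → Fin (s j) → ℕ)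
    (hM : ∀ j, AffineIndependent ℚ (fun i : Fin (r j) => fun t : Fin (s j) => (M j i t : ℚ)))
    (f : ∀ j, Fin (r j) → ∀ l, (Fin (A l) → Fin (d + 1)) → (Fin n → ℕ) → ℕ)
    (hf : ∀ j i l e, DFun n (f j i l e)) :
    ∃ F : ℕ → (Fin n → ℕ) → ℕ, DV F ∧ ∀ (p : ℕ) [Fact p.Prime] (v : Fin n → ℕ),
      (∀ l, Cv p fun e x => P l e x v) → F p v = Lp P M f v (ZMod p) := by
  classical
  choose N₀ hN₀ hinv hdv using fun j => nz_ind (n := n) (hM j)
  set N := ∏ j, N₀ j with hNdef
  have hN : 0 < N := Finset.prod_pos fun j _ => hN₀ j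
  have hNd : ∀ j, N₀ j ∣ N := fun j => Finset.dvd_prod_of_mem N₀ (Finset.mem_univ j)
  obtain ⟨g, hg, hG⟩ := gen_def N hN
  choose D hD hD' using fun (κ : ∀ j, Fin (r j) → Fin b → Fin (N + 1)) (j : Fin k) =>
    hdv j (fun i p _ => ∏ l, rp (κ j i l) (g p)) fun i =>
      DV.prod Finset.univ fun l => rp_dv (κ j i l) (DV.one hg)
  choose c hc hc' using fun (κ : ∀ j, Fin (r j) → Fin b → Fin (N + 1)) (l : Fin b) =>
    IsoV.sm_curve (P l) (hP l) (cls_sm f hf hg κ l)
  refine ⟨fun p v => ∑ κ : ∀ j, Fin (r j) → Fin b → Fin (N + 1),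
    (∏ j, D κ j p v) * ∏ l, c κ l p v, ?_, fun p _ v hC => ?_⟩
  · exact DV.sum Finset.univ fun κ => (DV.prod Finset.univ fun j => hD κ j).mul
      (DV.prod Finset.univ fun l => hc κ l)
  · rw [lp_sum]
    have h1 : ∀ z : ∀ l, Fin (A l) → ZMod p, (if ∀ l e, sval (fun x => P l e x v) (z l) = 0 then
        ∏ j, Nz (M j) (fun i => cz f v z j i) else 0) =
        ∑ κ : ∀ j, Fin (r j) → Fin b → Fin (N + 1),
          (∏ j, Nz (M j) (fun i => ∏ l, (rp (κ j i l) (g p : ZMod p) : ZMod p))) *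
          ∏ l, (if ∀ e, sval (fun x => P l e x v) (z l) = 0 then
            (if ∀ j i, Cl N (κ j i l) (ZMod p) ![sval (fun e => f j i l e v) (z l), (g p : ZMod p)]
              then 1 else 0) else 0) := by
      intro z
      have h2 := expand_L M hN (hG p) (fun j c ζ hζ => hinv j N (hNd j) p c ζ hζ)
        (fun j i l => sval (fun e => f j i l e v) (z l))
      by_cases h : ∀ l e, sval (fun x => P l e x v) (z l) = 0
      · rw [if_pos h]
        refine h2.trans (Finset.sum_congr rfl fun κ _ => ?_)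
        congr 1
        have h3 : ∀ l, (if ∀ e, sval (fun x => P l e x v) (z l) = 0 then
            (if ∀ j i, Cl N (κ j i l) (ZMod p) ![sval (fun e => f j i l e v) (z l), (g p : ZMod p)]
              then 1 else 0) else 0) = if ∀ j i, Cl N (κ j i l) (ZMod p)
                ![sval (fun e => f j i l e v) (z l), (g p : ZMod p)] then 1 else 0 :=
          fun l => if_pos (h l)
        simp only [h3]
        rw [Finset.prod_boole]
        by_cases h6 : ∀ j i l, Cl N (κ j i l) (ZMod p)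
            ![sval (fun e => f j i l e v) (z l), (g p : ZMod p)]
        · rw [if_pos h6]
          exact (if_pos fun l _ j i => h6 j i l).symm
        · rw [if_neg h6]
          exact (if_neg fun h7 => h6 fun j i l => h7 l (Finset.mem_univ l) j i).symm
      · rw [if_neg h]
        symm
        push Not at h
        obtain ⟨l, e, h⟩ := h
        refine Finset.sum_eq_zero fun κ _ => ?_
        rw [Finset.prod_eq_zero (Finset.mem_univ l), mul_zero]
        exact if_neg fun h4 => h (h4 e)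
    simp only [h1]
    rw [Finset.sum_comm]
    refine Finset.sum_congr rfl fun κ _ => ?_
    rw [← Finset.mul_sum]
    congr 1
    · refine Finset.prod_congr rfl fun j _ => ?_
      rw [hD' κ j p v]
      congr 1
      funext i
      rw [Nat.cast_prod]
      exact Finset.prod_congr rfl fun l _ => rp_cast (κ j i l) (ZMod p) (g p)
    · have h5 := Finset.prod_univ_sum (fun l : Fin b => (Finset.univ : Finset (Fin (A l) → ZMod p)))
        (fun l z => if ∀ e, sval (fun x => P l e x v) z = 0 then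
            (if ∀ j i, Cl N (κ j i l) (ZMod p) ![sval (fun e => f j i l e v) z, (g p : ZMod p)]
              then 1 else 0) else 0)
      rw [Fintype.piFinset_univ] at h5
      rw [← h5]
      refine Finset.prod_congr rfl fun l _ => ?_
      exact hc' κ l p v (hC l)

end Pool.Agent.IsoE
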