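import Pool.Agent.IsoE.Loc

/-!
# Products of curves and affinely independent exponents: numbers of solutions modulo squarefree numbers
-/

set_option autoImplicit false

noncomputable section

namespace Pool.Agent.IsoE

open Finset Polynomial Pool.Agent.PRc Pool.Agent.Grz Pool.Agent.CvS Pool.Agent.IsoC

variable {n b k d : ℕ} {A q : Fin b → ℕ} {s r : Fin k → ℕ}

private theorem sval_hom_T {a : ℕ} (c : (Fin a → Fin (d + 1)) → ℕ) {R S : Type} [CommRing R]
    [CommRing S] (φ : R →+* S) (z : Fin a → R) : φ (sval c z) = sval c fun i => φ (z i) := by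
  unfold sval
  simp only [map_sum, map_mul, map_prod, map_pow, map_natCast]

private theorem cz_hom_T (f : ∀ j, Fin (r j) → ∀ l, (Fin (A l) → Fin (d + 1)) → (Fin n → ℕ) → ℕ)
    (v : Fin n → ℕ) {R S : Type} [CommRing R] [CommRing S] (φ : R →+* S)
    (z : ∀ l, Fin (A l) → R) (j : Fin k) (i : Fin (r j)) :
    φ (cz f v z j i) = cz f v (fun l a => φ (z l a)) j i := by
  unfold cz
  rw [map_prod]
  exact Finset.prod_congr rfl fun l _ => sval_hom_T _ φ _

private theorem lp_one (P : ∀ l, Fin (q l) → (Fin (A l) → Fin (d + 1)) → (Fin n → ℕ) → ℕ)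
    (M : ∀ j, Fin (r j) → Fin (s j) → ℕ)
    (f : ∀ j, Fin (r j) → ∀ l, (Fin (A l) → Fin (d + 1)) → (Fin n → ℕ) → ℕ) (v : Fin n → ℕ) :
    Lp P M f v (ZMod 1) = 1 := by
  have hs : Subsingleton (ZMod 1) := inferInstanceAs (Subsingleton (Fin 1))
  rw [Lp, Nat.card_eq_one_iff_unique]
  refine ⟨⟨fun a b => Subtype.ext (Prod.ext ?_ ?_)⟩,
    ⟨⟨(fun _ _ => 0, fun _ _ => 0), fun l e => Subsingleton.elim _ _, fun j => Subsingleton.elim _ _⟩⟩⟩
  · funext l i
    exact Subsingleton.elim _ _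
  · funext l i
    exact Subsingleton.elim _ _

private theorem lp_mul (P : ∀ l, Fin (q l) → (Fin (A l) → Fin (d + 1)) → (Fin n → ℕ) → ℕ)
    (M : ∀ j, Fin (r j) → Fin (s j) → ℕ)
    (f : ∀ j, Fin (r j) → ∀ l, (Fin (A l) → Fin (d + 1)) → (Fin n → ℕ) → ℕ) (v : Fin n → ℕ)
    {a c : ℕ} (h : Nat.Coprime a c) :
    Lp P M f v (ZMod (a * c)) = Lp P M f v (ZMod a) * Lp P M f v (ZMod c) := by
  rw [Lp, Lp, Lp, ← Nat.card_prod]
  let e : ZMod (a * c) ≃+* ZMod a × ZMod c := ZMod.chineseRemainder h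
  let φ : ZMod (a * c) →+* ZMod a := (RingHom.fst _ _).comp e.toRingHom
  let ψ : ZMod (a * c) →+* ZMod c := (RingHom.snd _ _).comp e.toRingHom
  have hφ : ∀ z, φ z = (e z).1 := fun z => rfl
  have hψ : ∀ z, ψ z = (e z).2 := fun z => rfl
  have k0 : ∀ x : ZMod (a * c), x = 0 ↔ φ x = 0 ∧ ψ x = 0 := by
    intro x
    rw [hφ, hψ, ← map_eq_zero_iff e e.injective, Prod.ext_iff]
    rfl
  have k1 : ∀ (l : Fin b) (t : Fin (q l)) (z : Fin (A l) → ZMod (a * c)),
      sval (fun x => P l t x v) z = 0 ↔ sval (fun x => P l t x v) (fun i => (e (z i)).1) = 0 ∧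
        sval (fun x => P l t x v) (fun i => (e (z i)).2) = 0 := by
    intro l t z
    rw [k0, sval_hom_T, sval_hom_T]
    rfl
  have k2 : ∀ (z : ∀ l, Fin (A l) → ZMod (a * c)) (x : ∀ j, Fin (s j) → ZMod (a * c)) (j : Fin k),
      ∑ i, cz f v z j i * ∏ t, x j t ^ M j i t = 0 ↔
        ∑ i, cz f v (fun l a => (e (z l a)).1) j i * ∏ t, (e (x j t)).1 ^ M j i t = 0 ∧
        ∑ i, cz f v (fun l a => (e (z l a)).2) j i * ∏ t, (e (x j t)).2 ^ M j i t = 0 := by
    intro z x j
    rw [k0]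
    simp only [map_sum, map_mul, map_prod, map_pow, cz_hom_T]
    rfl
  refine Nat.card_congr
    { toFun := fun w => (⟨(fun l i => (e (w.1.1 l i)).1, fun j t => (e (w.1.2 j t)).1),
        fun l t => ?_, fun j => ?_⟩,
        ⟨(fun l i => (e (w.1.1 l i)).2, fun j t => (e (w.1.2 j t)).2),
        fun l t => ?_, fun j => ?_⟩)
      invFun := fun w => ⟨(fun l i => e.symm (w.1.1.1 l i, w.2.1.1 l i),
        fun j i => e.symm (w.1.1.2 j i, w.2.1.2 j i)), fun l t => ?_, fun j => ?_⟩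
      left_inv := fun w => ?_
      right_inv := fun w => ?_ }
  · exact ((k1 l t _).1 (w.2.1 l t)).1
  · exact ((k2 _ _ j).1 (w.2.2 j)).1
  · exact ((k1 l t _).1 (w.2.1 l t)).2
  · exact ((k2 _ _ j).1 (w.2.2 j)).2
  · rw [k1]
    simp only [RingEquiv.apply_symm_apply]
    exact ⟨w.1.2.1 l t, w.2.2.1 l t⟩
  · rw [k2]
    simp only [RingEquiv.apply_symm_apply]
    exact ⟨w.1.2.2 j, w.2.2.2 j⟩
  · apply Subtype.ext
    apply Prod.ext
    · funext l i
      simp
    · funext j i
      simp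
  · apply Prod.ext
    · apply Subtype.ext
      apply Prod.ext
      · funext l i
        simp
      · funext j i
        simp
    · apply Subtype.ext
      apply Prod.ext
      · funext l i
        simp
      · funext j i
        simp

private theorem lp_crt (P : ∀ l, Fin (q l) → (Fin (A l) → Fin (d + 1)) → (Fin n → ℕ) → ℕ)
    (M : ∀ j, Fin (r j) → Fin (s j) → ℕ)
    (f : ∀ j, Fin (r j) → ∀ l, (Fin (A l) → Fin (d + 1)) → (Fin n → ℕ) → ℕ) (v : Fin n → ℕ)
    {m : ℕ} (hm : Squarefree m) :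
    Lp P M f v (ZMod m) = ∏ p ∈ m.primeFactors, Lp P M f v (ZMod p) := by
  induction m using Nat.strong_induction_on with
  | _ m ih =>
    have hm0 : m ≠ 0 := hm.ne_zero
    rcases Nat.eq_or_lt_of_le (Nat.one_le_iff_ne_zero.2 hm0) with h | h
    · subst h
      rw [Nat.primeFactors_one, prod_empty, lp_one]
    · have hp : (m.minFac).Prime := Nat.minFac_prime h.ne'
      obtain ⟨l, hl⟩ := m.minFac_dvd
      have hco : Nat.Coprime m.minFac l := by
        rw [hl] at hm
        exact Nat.coprime_of_squarefree_mul hm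
      have hlm : Squarefree l := by
        refine hm.squarefree_of_dvd ?_
        rw [hl]
        exact dvd_mul_left _ _
      have hlt : l < m := by
        have hk0 : 0 < l := Nat.pos_of_ne_zero hlm.ne_zero
        conv_rhs => rw [hl]
        have := hp.two_le
        nlinarith
      have e1 := lp_mul P M f v hco
      rw [← hl] at e1
      rw [e1, ih l hlt hlm]
      conv_rhs => rw [hl]
      rw [hco.primeFactors_mul, prod_union hco.disjoint_primeFactors, hp.primeFactors,
        prod_singleton]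

private theorem lp_le (P : ∀ l, Fin (q l) → (Fin (A l) → Fin (d + 1)) → (Fin n → ℕ) → ℕ)
    (M : ∀ j, Fin (r j) → Fin (s j) → ℕ)
    (f : ∀ j, Fin (r j) → ∀ l, (Fin (A l) → Fin (d + 1)) → (Fin n → ℕ) → ℕ) (v : Fin n → ℕ)
    (p : ℕ) [Fact p.Prime] : Lp P M f v (ZMod p) ≤ p ^ ((∑ l, A l) + ∑ j, s j) := by
  have h1 : Lp P M f v (ZMod p) ≤
      Nat.card ((∀ l, Fin (A l) → ZMod p) × (∀ j, Fin (s j) → ZMod p)) :=
    Nat.card_le_card_of_injective _ Subtype.val_injective
  refine h1.trans (le_of_eq ?_)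
  rw [Nat.card_prod, Nat.card_pi, Nat.card_pi, pow_add]
  congr 1
  · rw [← Finset.prod_pow_eq_pow_sum]
    refine Finset.prod_congr rfl fun j _ => ?_
    rw [Nat.card_fun, Nat.card_zmod, Nat.card_eq_fintype_card, Fintype.card_fin]
  · rw [← Finset.prod_pow_eq_pow_sum]
    refine Finset.prod_congr rfl fun j _ => ?_
    rw [Nat.card_fun, Nat.card_zmod, Nat.card_eq_fintype_card, Fintype.card_fin]

theorem sqf_T {m : (Fin n → ℕ) → ℕ} (hm : DFun n m) :
    Delta0 n (fun v => Squarefree (m v)) := by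
  have h1 : Delta0 (n + 1) (fun w => w 0 * w 0 ∣ m (fun i => w i.succ) → w 0 = 1) :=
    (ECD.delta_dvd ((DFun.proj 0).mul (DFun.proj 0)) hm.weak).imp
      (Delta0.eqFun (DFun.proj 0) (DFun.const 1))
  refine ((Delta0.ltFun (DFun.const 0) hm).and (Delta0.ballFun
    (P := fun x v => x * x ∣ m v → x = 1) hm h1)).of_iff fun v => ?_
  constructor
  · intro h
    exact ⟨Nat.pos_of_ne_zero h.ne_zero, fun x _ hx => Nat.isUnit_iff.1 (h x hx)⟩
  · rintro ⟨h0, h⟩ x hx
    refine Nat.isUnit_iff.2 (h x ?_ hx)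
    have h2 : x * x ≤ m v := Nat.le_of_dvd h0 hx
    exact (Nat.le_mul_self x).trans h2

/-- the modulus is squarefree and all the base sets are curves modulo its prime divisors -/
def Gd (P : ∀ l, Fin (q l) → (Fin (A l) → Fin (d + 1)) → (Fin n → ℕ) → ℕ) (v : Fin n → ℕ) (m : ℕ) :
    Prop := Squarefree m ∧ ∀ p, p.Prime → p ∣ m → ∀ l, Cv p fun e x => P l e x v

theorem gd_T {P : ∀ l, Fin (q l) → (Fin (A l) → Fin (d + 1)) → (Fin n → ℕ) → ℕ}
    (hP : ∀ l e x, DFun n (P l e x)) {m : (Fin n → ℕ) → ℕ} (hm : DFun n m) :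
    Delta0 n (fun v => Gd P v (m v)) := by
  have h3 : Delta0 (n + 1) (fun w => (w 0).Prime → w 0 ∣ m (fun i => w i.succ) →
      ∀ l, Cv (w 0) fun e x => P l e x fun i => w i.succ) :=
    (ECD.delta_prime (DFun.proj 0)).imp ((ECD.delta_dvd (DFun.proj 0) hm.weak).imp
      (PTr.Delta0.allOf fun l => CvH.cv_delta (DFun.proj 0) fun e x => (hP l e x).weak))
  refine ((sqf_T hm).and (Delta0.ballFun (P := fun x v => x.Prime → x ∣ m v →
      ∀ l, Cv x fun e y => P l e y v) hm h3)).of_iff fun v => ?_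
  refine and_congr_right fun hs => ?_
  constructor
  · intro h3 p _
    exact h3 p
  · intro h3 p hp hd
    exact h3 p (Nat.le_of_dvd (Nat.pos_of_ne_zero hs.ne_zero) hd) hp hd

open scoped Classical in
theorem top (P : ∀ l, Fin (q l) → (Fin (A l) → Fin (d + 1)) → (Fin n → ℕ) → ℕ)
    (hP : ∀ l e x, DFun n (P l e x)) (M : ∀ j, Fin (r j) → Fin (s j) → ℕ)
    (hM : ∀ j, AffineIndependent ℚ (fun i : Fin (r j) => fun t : Fin (s j) => (M j i t : ℚ)))
    (f : ∀ j, Fin (r j) → ∀ l, (Fin (A l) → Fin (d + 1)) → (Fin n → ℕ) → ℕ)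
    (hf : ∀ j i l e, DFun n (f j i l e)) (m : (Fin n → ℕ) → ℕ) (hm : DFun n m) :
    DFun n (fun v => if Gd P v (m v) then Lp P M f v (ZMod (m v)) else 0) := by
  obtain ⟨F, hF, hF'⟩ := loc P hP M hM f hf
  set S : ℕ := (∑ l, A l) + ∑ j, s j with hSdef
  have hs : Delta0 n (fun v => Squarefree (m v)) := sqf_T hm
  have hm' : DFun n (fun v => if Squarefree (m v) then m v else 1) :=
    DFun.ite hs hm (DFun.const 1)
  have hg : DFun (n + 1) (fun w => (fun (q : ℕ) (v : Fin n → ℕ) =>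
      min (F q v) (q ^ S)) (w 0) (fun i => w i.succ)) :=
    DFun.min hF (PTr.DFun.powConst (DFun.proj 0) S)
  have hbd : ∀ v : Fin n → ℕ, ∏ q ∈ (if Squarefree (m v) then m v else 1).primeFactors,
      min (F q v) (q ^ S) ≤ (if Squarefree (m v) then m v else 1) ^ S := by
    intro v
    have h0 : (if Squarefree (m v) then m v else 1) ≠ 0 := by
      split_ifs with h1
      · exact h1.ne_zero
      · exact one_ne_zero
    calc ∏ q ∈ (if Squarefree (m v) then m v else 1).primeFactors, min (F q v) (q ^ S)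
        ≤ ∏ q ∈ (if Squarefree (m v) then m v else 1).primeFactors, q ^ S :=
          Finset.prod_le_prod' fun q _ => min_le_right _ _
      _ = (∏ q ∈ (if Squarefree (m v) then m v else 1).primeFactors, q) ^ S :=
          Finset.prod_pow _ _ _
      _ ≤ (if Squarefree (m v) then m v else 1) ^ S :=
          Nat.pow_le_pow_left (Nat.le_of_dvd (Nat.pos_of_ne_zero h0)
            (Nat.prod_primeFactors_dvd _)) S
  have h2 := PtC.dfun_prodPF (n := n) (m := fun v => if Squarefree (m v) then m v else 1)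
    (B := fun v => (if Squarefree (m v) then m v else 1) ^ S) hg hm'
    (PTr.DFun.powConst hm' S) hbd
  have h3 := DFun.ite (gd_T hP hm) h2 (DFun.const 0)
  have e : (fun v => if Gd P v (m v) then Lp P M f v (ZMod (m v)) else 0) = fun v =>
      if Gd P v (m v) then ∏ q ∈ (if Squarefree (m v) then m v else 1).primeFactors,
        min (F q v) (q ^ S) else 0 := by
    funext v
    by_cases hv : Gd P v (m v)
    · rw [if_pos hv, if_pos hv, if_pos hv.1, lp_crt P M f v hv.1]
      refine Finset.prod_congr rfl fun q hq => ?_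
      have : Fact q.Prime := ⟨Nat.prime_of_mem_primeFactors hq⟩
      rw [hF' q v (hv.2 q (Nat.prime_of_mem_primeFactors hq) (Nat.dvd_of_mem_primeFactors hq))]
      exact (min_eq_left (lp_le P M f v q)).symm
    · rw [if_neg hv, if_neg hv]
  rw [e]
  exact h3

end Pool.Agent.IsoE
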