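import Pool.Agent.IsoE.Loc

/-!
# Systems of equations with independent exponent vectors over a finite field

`Ns M c`: the number of the common zeros of the polynomials `∑ i, c j i * ∏ x t ^ M j i t`, `j : Fin k`. `ns_cay`: it is
determined by the number of the zeros of the single polynomial `∑ j, w j * ∑ i, c j i * ∏ x t ^ M j i t` in the unknowns
`w`, `x`. `ns_ind`: it depends on the coefficients modulo powers only, and it is definable, if the exponent vectors of the
single polynomial are linearly independent.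
-/

set_option autoImplicit false

noncomputable section

namespace Pool.Agent.IsoE

open Finset Polynomial Pool.Agent.PRc Pool.Agent.Grz Pool.Agent.CvS Pool.Agent.IsoC

variable {n : ℕ}

/-- the number of the zeros -/
def Ng {α β : Type} [Fintype α] [Fintype β] (M : α → β → ℕ) {K : Type} [Field K] (c : α → K) : ℕ :=
  Nat.card {x : β → K // ∑ i, c i * ∏ q, x q ^ M i q = 0}

theorem ng_fin {α β : Type} [Fintype α] [Fintype β] {r s : ℕ} (e : Fin r ≃ α) (e' : Fin s ≃ β)
    (M : α → β → ℕ) {K : Type} [Field K] (c : α → K) :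
    Ng M c = Nz (fun i q => M (e i) (e' q)) (fun i => c (e i)) := by
  unfold Ng Nz
  refine Nat.card_congr ((Equiv.arrowCongr e'.symm (Equiv.refl K)).subtypeEquiv fun x => ?_)
  have h1 : ∑ i : Fin r, c (e i) * ∏ q : Fin s, (Equiv.arrowCongr e'.symm (Equiv.refl K)) x q ^
      M (e i) (e' q) = ∑ i, c i * ∏ q, x q ^ M i q := by
    rw [← Equiv.sum_comp e]
    refine Finset.sum_congr rfl fun i _ => ?_
    rw [← Equiv.prod_comp e']
    rfl
  rw [h1]

private theorem aff_re {α β : Type} [Fintype α] {r s : ℕ} (e : Fin r ≃ α) (e' : Fin s ≃ β)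
    {M : α → β → ℕ} (hM : ∀ g : α → ℚ, ∑ a, g a = 0 → (∀ q, ∑ a, g a * M a q = 0) → ∀ a, g a = 0) :
    AffineIndependent ℚ (fun i : Fin r => fun q : Fin s => (M (e i) (e' q) : ℚ)) := by
  classical
  rw [affineIndependent_iff]
  intro S w h0 h1
  have h2 := hM (fun a => if e.symm a ∈ S then w (e.symm a) else 0) ?_ ?_
  · intro i hi
    have h3 := h2 (e i)
    rwa [Equiv.symm_apply_apply, if_pos hi] at h3
  · rw [← Equiv.sum_comp e]
    simp only [Equiv.symm_apply_apply]
    rw [Finset.sum_ite_mem, Finset.univ_inter]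
    exact h0
  · intro q
    rw [← Equiv.sum_comp e]
    simp only [Equiv.symm_apply_apply, ite_mul, zero_mul]
    rw [Finset.sum_ite_mem, Finset.univ_inter]
    have h4 := congrFun h1 (e'.symm q)
    simpa using h4

theorem ng_ind {α β : Type} [Fintype α] [Fintype β] {M : α → β → ℕ}
    (hM : ∀ g : α → ℚ, ∑ a, g a = 0 → (∀ q, ∑ a, g a * M a q = 0) → ∀ a, g a = 0) :
    ∃ N : ℕ, 0 < N ∧
      (∀ N' : ℕ, N ∣ N' → ∀ (p : ℕ) [Fact p.Prime] (c ζ : α → ZMod p), (∀ i, ζ i ≠ 0) →
        Ng M (fun i => c i * ζ i ^ N') = Ng M c) ∧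
      ∀ a : α → ℕ → (Fin n → ℕ) → ℕ, (∀ i, DV (a i)) → ∃ f : ℕ → (Fin n → ℕ) → ℕ, DV f ∧
        ∀ (p : ℕ) [Fact p.Prime] (v : Fin n → ℕ), f p v = Ng M (fun i => (a i p v : ZMod p)) := by
  set e := (Fintype.equivFin α).symm
  set e' := (Fintype.equivFin β).symm
  obtain ⟨N, hN, h1, h2⟩ := nz_ind (n := n) (aff_re e e' hM)
  refine ⟨N, hN, fun N' hN' p _ c ζ hζ => ?_, fun a ha => ?_⟩
  · rw [ng_fin e e', ng_fin e e']
    exact h1 N' hN' p _ _ fun i => hζ (e i)
  · obtain ⟨f, hf, h3⟩ := h2 (fun i => a (e i)) fun i => ha (e i)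
    refine ⟨f, hf, fun p _ v => ?_⟩
    rw [h3 p v, ng_fin e e']

variable {k s : ℕ} {u : Fin k → ℕ}

/-- the number of the common zeros -/
def Ns (M : ∀ j, Fin (u j) → Fin s → ℕ) {K : Type} [Field K] (c : ∀ j, Fin (u j) → K) : ℕ :=
  Nat.card {x : Fin s → K // ∀ j, ∑ i, c j i * ∏ t, x t ^ M j i t = 0}

/-- the exponent vectors of the single polynomial -/
def Cay (M : ∀ j, Fin (u j) → Fin s → ℕ) (a : (j : Fin k) × Fin (u j)) : Fin k ⊕ Fin s → ℕ :=
  Sum.elim (fun j => if j = a.1 then 1 else 0) (M a.1 a.2)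

open scoped Classical in
private theorem hyper {K : Type} [Field K] [Fintype K] (g : Fin k → K) :
    Fintype.card K * Nat.card {w : Fin k → K // ∑ j, w j * g j = 0} =
      Fintype.card K ^ k + if ∀ j, g j = 0 then Fintype.card K ^ k * (Fintype.card K - 1) else 0 := by
  have hq : 1 ≤ Fintype.card K := Fintype.card_pos
  have hk : Nat.card (Fin k → K) = Fintype.card K ^ k := by
    rw [Nat.card_eq_fintype_card, Fintype.card_fun, Fintype.card_fin]
  by_cases h : ∀ j, g j = 0
  · rw [if_pos h]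
    have h1 : Nat.card {w : Fin k → K // ∑ j, w j * g j = 0} = Nat.card (Fin k → K) := by
      refine Nat.card_congr (Equiv.subtypeUnivEquiv fun w => ?_)
      exact Finset.sum_eq_zero fun j _ => by rw [h j, mul_zero]
    rw [h1, hk]
    obtain ⟨q, hq'⟩ := Nat.exists_eq_add_of_le hq
    rw [hq', Nat.add_sub_cancel_left]
    ring
  · rw [if_neg h, add_zero]
    push Not at h
    obtain ⟨j₀, hj⟩ := h
    have hs : ∀ c : K, ∑ j, (Pi.single j₀ (c / g j₀) : Fin k → K) j * g j = c := by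
      intro c
      rw [Finset.sum_eq_single j₀]
      · rw [Pi.single_eq_same, div_mul_cancel₀ _ hj]
      · intro j _ hne
        rw [Pi.single_eq_of_ne hne, zero_mul]
      · intro h2
        exact absurd (Finset.mem_univ _) h2
    have h1 : Nat.card (Fin k → K) = Nat.card (K × {w : Fin k → K // ∑ j, w j * g j = 0}) := by
      refine Nat.card_congr
        { toFun := fun w => (∑ j, w j * g j,
            ⟨fun j => w j - (Pi.single j₀ ((∑ j, w j * g j) / g j₀) : Fin k → K) j, ?_⟩)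
          invFun := fun w => fun j => w.2.1 j + (Pi.single j₀ (w.1 / g j₀) : Fin k → K) j
          left_inv := fun w => ?_
          right_inv := fun w => ?_ }
      · simp only [sub_mul]
        rw [Finset.sum_sub_distrib, hs, sub_self]
      · funext j
        simp
      · have h2 : ∑ j, (w.2.1 j + (Pi.single j₀ (w.1 / g j₀) : Fin k → K) j) * g j = w.1 := by
          simp only [add_mul]
          rw [Finset.sum_add_distrib, hs, w.2.2, zero_add]
        apply Prod.ext
        · exact h2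
        · apply Subtype.ext
          funext j
          show w.2.1 j + (Pi.single j₀ (w.1 / g j₀) : Fin k → K) j - (Pi.single j₀
            ((∑ j, (w.2.1 j + (Pi.single j₀ (w.1 / g j₀) : Fin k → K) j) * g j) / g j₀) :
              Fin k → K) j = w.2.1 j
          rw [h2, add_sub_cancel_right]
    rw [← hk, h1, Nat.card_prod, Nat.card_eq_fintype_card (α := K)]

private theorem cay_val (M : ∀ j, Fin (u j) → Fin s → ℕ) {K : Type} [Field K]
    (c : ∀ j, Fin (u j) → K) (w : Fin k → K) (x : Fin s → K) :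
    ∑ a : (j : Fin k) × Fin (u j), c a.1 a.2 * ∏ q, (Sum.elim w x : Fin k ⊕ Fin s → K) q ^
      Cay M a q = ∑ j, w j * ∑ i, c j i * ∏ t, x t ^ M j i t := by
  classical
  rw [Fintype.sum_sigma]
  refine Finset.sum_congr rfl fun j _ => ?_
  rw [Finset.mul_sum]
  refine Finset.sum_congr rfl fun i _ => ?_
  rw [Fintype.prod_sum_type]
  have h1 : ∏ j', (Sum.elim w x : Fin k ⊕ Fin s → K) (Sum.inl j') ^ Cay M ⟨j, i⟩ (Sum.inl j') =
      w j := by
    rw [Finset.prod_eq_single j]
    · simp [Cay]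
    · intro j' _ hne
      simp [Cay, hne]
    · intro h2
      exact absurd (Finset.mem_univ _) h2
  rw [h1]
  simp only [Sum.elim_inr, Cay]
  ring

theorem ns_cay (M : ∀ j, Fin (u j) → Fin s → ℕ) {K : Type} [Field K] [Fintype K]
    (c : ∀ j, Fin (u j) → K) : Fintype.card K * Ng (Cay M) (fun a => c a.1 a.2) =
      Fintype.card K ^ (k + s) + Ns M c * (Fintype.card K ^ k * (Fintype.card K - 1)) := by
  classical
  have h1 : Ng (Cay M) (fun a => c a.1 a.2) = ∑ x : Fin s → K,
      Nat.card {w : Fin k → K // ∑ j, w j * ∑ i, c j i * ∏ t, x t ^ M j i t = 0} := by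
    rw [← Nat.card_sigma]
    unfold Ng
    refine Nat.card_congr
      { toFun := fun z => ⟨fun t => z.1 (Sum.inr t), fun j => z.1 (Sum.inl j), ?_⟩
        invFun := fun z => ⟨Sum.elim z.2.1 z.1, ?_⟩
        left_inv := fun z => ?_
        right_inv := fun z => rfl }
    · have h2 := z.2
      rw [← Sum.elim_comp_inl_inr z.1] at h2
      rw [cay_val] at h2
      exact h2
    · rw [cay_val]
      exact z.2.2
    · exact Subtype.ext (Sum.elim_comp_inl_inr z.1)
  rw [h1, Finset.mul_sum]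
  simp only [hyper]
  rw [Finset.sum_add_distrib, Finset.sum_const, Finset.card_univ, Fintype.card_fun,
    Fintype.card_fin, smul_eq_mul, ← pow_add, add_comm s k]
  congr 1
  rw [← Finset.sum_filter, Finset.sum_const, smul_eq_mul]
  congr 1
  unfold Ns
  rw [Nat.card_eq_fintype_card, Fintype.card_subtype]

theorem ns_eq (M : ∀ j, Fin (u j) → Fin s → ℕ) {K : Type} [Field K] [Fintype K]
    (c : ∀ j, Fin (u j) → K) : Ns M c =
      (Fintype.card K * Ng (Cay M) (fun a => c a.1 a.2) - Fintype.card K ^ (k + s)) /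
        (Fintype.card K ^ k * (Fintype.card K - 1)) := by
  rw [ns_cay, Nat.add_sub_cancel_left, Nat.mul_div_cancel]
  exact Nat.mul_pos (pow_pos Fintype.card_pos _) (Nat.sub_pos_of_lt Fintype.one_lt_card)

theorem ns_ind {M : ∀ j, Fin (u j) → Fin s → ℕ}
    (hM : ∀ g : ∀ j, Fin (u j) → ℚ, (∀ j, ∑ i, g j i = 0) →
      (∀ t, ∑ j, ∑ i, g j i * M j i t = 0) → ∀ j i, g j i = 0) :
    ∃ N : ℕ, 0 < N ∧
      (∀ N' : ℕ, N ∣ N' → ∀ (p : ℕ) [Fact p.Prime] (c ζ : ∀ j, Fin (u j) → ZMod p),
        (∀ j i, ζ j i ≠ 0) → Ns M (fun j i => c j i * ζ j i ^ N') = Ns M c) ∧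
      ∀ a : ∀ j, Fin (u j) → ℕ → (Fin n → ℕ) → ℕ, (∀ j i, DV (a j i)) →
        ∃ f : ℕ → (Fin n → ℕ) → ℕ, DV f ∧
        ∀ (p : ℕ) [Fact p.Prime] (v : Fin n → ℕ), f p v = Ns M (fun j i => (a j i p v : ZMod p)) := by
  classical
  have hC : ∀ g : ((j : Fin k) × Fin (u j)) → ℚ, ∑ a, g a = 0 →
      (∀ q, ∑ a, g a * Cay M a q = 0) → ∀ a, g a = 0 := by
    intro g _ h2 a
    refine hM (fun j i => g ⟨j, i⟩) (fun j => ?_) (fun t => ?_) a.1 a.2
    · have h3 := h2 (Sum.inl j)
      rw [Fintype.sum_sigma, Finset.sum_eq_single j] at h3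
      · simpa [Cay] using h3
      · intro j' _ hne
        refine Finset.sum_eq_zero fun i _ => ?_
        simp [Cay, Ne.symm hne]
      · intro h4
        exact absurd (Finset.mem_univ _) h4
    · have h3 := h2 (Sum.inr t)
      rw [Fintype.sum_sigma] at h3
      simpa [Cay] using h3
  obtain ⟨N, hN, h1, h2⟩ := ng_ind (n := n) hC
  refine ⟨N, hN, fun N' hN' p _ c ζ hζ => ?_, fun a ha => ?_⟩
  · rw [ns_eq, ns_eq]
    congr 3
    exact h1 N' hN' p (fun a => c a.1 a.2) (fun a => ζ a.1 a.2) fun a => hζ a.1 a.2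
  · obtain ⟨f, hf, h3⟩ := h2 (fun b => a b.1 b.2) fun b => ha b.1 b.2
    refine ⟨fun p v => (p * f p v - p ^ (k + s)) / (p ^ k * (p - 1)), ?_, fun p _ v => ?_⟩
    · exact DV.div (DFun.sub (DV.pr.mul hf) (DV.pr.pow _))
        ((DV.pr.pow _).mul (DFun.sub DV.pr (DV.const 1)))
    · rw [ns_eq, ZMod.card, ← h3 p v]

end Pool.Agent.IsoE
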