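import Pool.Agent.IsoE.SLoc

/-!
# Systems over products of definable subsets of curves: the local numbers

`ulc`: as `slc`, the `z l` satisfy in addition relations `θ l` (`PRQ`) with parameters.
-/

set_option autoImplicit false

noncomputable section

namespace Pool.Agent.IsoE

open Finset Polynomial Pool.Agent.PRc Pool.Agent.Grz Pool.Agent.CvS Pool.Agent.IsoC

variable {n b k s d t : ℕ} {A q : Fin b → ℕ} {u : Fin k → ℕ}

open scoped Classical in
/-- the number of zeros as a sum over the classes of the factors -/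
theorem expand_U (M : ∀ j, Fin (u j) → Fin s → ℕ) {N : ℕ} (hN : 0 < N) {p : ℕ}
    [Fact p.Prime] {g : ZMod p} (hg : Gen N g)
    (hinv : ∀ c ζ : ∀ j, Fin (u j) → ZMod p, (∀ j i, ζ j i ≠ 0) →
      Ns M (fun j i => c j i * ζ j i ^ N) = Ns M c)
    (a : ∀ j, Fin (u j) → ZMod p) (F : ∀ j, Fin (u j) → Fin b → ZMod p) :
    Ns M (fun j i => a j i * ∏ l, F j i l) = ∑ κ : ∀ j, Fin (u j) → Fin b → Fin (N + 1),
      Ns M (fun j i => a j i * ∏ l, (rp (κ j i l) g : ZMod p)) *
        if ∀ j i l, Cl N (κ j i l) (ZMod p) ![F j i l, g] then 1 else 0 := by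
  choose κ hκ huκ using fun j i l => cl_ex hN hg (F j i l)
  rw [Finset.sum_eq_single κ]
  · rw [if_pos hκ, mul_one]
    choose y hy e using fun j i l => cl_rep hN (hκ j i l)
    rw [← hinv (fun j i => a j i * ∏ l, (rp (κ j i l) g : ZMod p)) (fun j i => ∏ l, y j i l)
      fun j i => Finset.prod_ne_zero_iff.2 fun l _ => hy j i l]
    congr 1
    funext j i
    rw [← Finset.prod_pow, mul_assoc, ← Finset.prod_mul_distrib]
    congr 1
    exact Finset.prod_congr rfl fun l _ => e j i l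
  · intro κ' _ hne
    rw [if_neg, mul_zero]
    intro h
    refine hne ?_
    funext j i l
    exact huκ j i l (κ' j i l) (h j i l)
  · intro h
    exact absurd (Finset.mem_univ _) h

/-- the condition on the unknowns `z l` -/
def Bs (P : ∀ l, Fin (q l) → (Fin (A l) → Fin (d + 1)) → (Fin n → ℕ) → ℕ)
    (θ : ∀ l, FR (Fin (A l) ⊕ Fin t)) (c : Fin t → (Fin n → ℕ) → ℕ) (v : Fin n → ℕ) (p : ℕ)
    [Fact p.Prime] (l : Fin b) (z : Fin (A l) → ZMod p) : Prop :=
  (∀ e, sval (fun x => P l e x v) z = 0) ∧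
    θ l (ZMod p) (Sum.elim z fun i => (c i v : ZMod p))

/-- the number of the solutions -/
def Lu (P : ∀ l, Fin (q l) → (Fin (A l) → Fin (d + 1)) → (Fin n → ℕ) → ℕ)
    (M : ∀ j, Fin (u j) → Fin s → ℕ) (a : ∀ j, Fin (u j) → (Fin n → ℕ) → ℕ)
    (f : ∀ j, Fin (u j) → ∀ l, (Fin (A l) → Fin (d + 1)) → (Fin n → ℕ) → ℕ)
    (θ : ∀ l, FR (Fin (A l) ⊕ Fin t)) (c : Fin t → (Fin n → ℕ) → ℕ) (v : Fin n → ℕ) (p : ℕ)
    [Fact p.Prime] : ℕ :=
  Nat.card {w : (∀ l, Fin (A l) → ZMod p) × (Fin s → ZMod p) //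
    (∀ l, Bs P θ c v p l (w.1 l)) ∧ ∀ j, ∑ i, cs a f v w.1 j i * ∏ t, w.2 t ^ M j i t = 0}

open scoped Classical in
/-- the sum over the base -/
private theorem lu_sum (P : ∀ l, Fin (q l) → (Fin (A l) → Fin (d + 1)) → (Fin n → ℕ) → ℕ)
    (M : ∀ j, Fin (u j) → Fin s → ℕ) (a : ∀ j, Fin (u j) → (Fin n → ℕ) → ℕ)
    (f : ∀ j, Fin (u j) → ∀ l, (Fin (A l) → Fin (d + 1)) → (Fin n → ℕ) → ℕ)
    (θ : ∀ l, FR (Fin (A l) ⊕ Fin t)) (c : Fin t → (Fin n → ℕ) → ℕ) (v : Fin n → ℕ)
    (p : ℕ) [Fact p.Prime] : Lu P M a f θ c v p = ∑ z : ∀ l, Fin (A l) → ZMod p,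
      if ∀ l, Bs P θ c v p l (z l) then Ns M (cs a f v z) else 0 := by
  unfold Lu
  have e : {w : (∀ l, Fin (A l) → ZMod p) × (Fin s → ZMod p) //
      (∀ l, Bs P θ c v p l (w.1 l)) ∧
        ∀ j, ∑ i, cs a f v w.1 j i * ∏ t, w.2 t ^ M j i t = 0} ≃
      Σ z : ∀ l, Fin (A l) → ZMod p, {x : Fin s → ZMod p //
        (∀ l, Bs P θ c v p l (z l)) ∧
          ∀ j, ∑ i, cs a f v z j i * ∏ t, x t ^ M j i t = 0} :=
    { toFun := fun w => ⟨w.1.1, w.1.2, w.2⟩
      invFun := fun w => ⟨(w.1, w.2.1), w.2.2⟩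
      left_inv := fun _ => rfl
      right_inv := fun _ => rfl }
  rw [Nat.card_congr e, Nat.card_sigma]
  refine Finset.sum_congr rfl fun z _ => ?_
  by_cases h : ∀ l, Bs P θ c v p l (z l)
  · rw [if_pos h]
    unfold Ns
    exact Nat.card_congr (Equiv.subtypeEquivRight fun x => and_iff_right h)
  · rw [if_neg h, Nat.card_eq_zero]
    exact Or.inl ⟨fun x => h x.2.1⟩

theorem ulc (P : ∀ l, Fin (q l) → (Fin (A l) → Fin (d + 1)) → (Fin n → ℕ) → ℕ)
    (hP : ∀ l e x, DFun n (P l e x)) (M : ∀ j, Fin (u j) → Fin s → ℕ)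
    (hM : ∀ g : ∀ j, Fin (u j) → ℚ, (∀ j, ∑ i, g j i = 0) →
      (∀ t, ∑ j, ∑ i, g j i * M j i t = 0) → ∀ j i, g j i = 0)
    (a : ∀ j, Fin (u j) → (Fin n → ℕ) → ℕ) (ha : ∀ j i, DFun n (a j i))
    (f : ∀ j, Fin (u j) → ∀ l, (Fin (A l) → Fin (d + 1)) → (Fin n → ℕ) → ℕ)
    (hf : ∀ j i l e, DFun n (f j i l e)) (θ : ∀ l, FR (Fin (A l) ⊕ Fin t))
    (hθ : ∀ l, PRQ (θ l)) (c : Fin t → (Fin n → ℕ) → ℕ) (hc : ∀ i, DFun n (c i)) :
    ∃ F : ℕ → (Fin n → ℕ) → ℕ, DV F ∧ ∀ (p : ℕ) [Fact p.Prime] (v : Fin n → ℕ),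
      (∀ l, Cv p fun e x => P l e x v) → F p v = Lu P M a f θ c v p := by
  classical
  obtain ⟨N, hN, hinv, hdv⟩ := ns_ind (n := n) hM
  obtain ⟨g, hg, hG⟩ := gen_def N hN
  choose D hD hD' using fun κ : ∀ j, Fin (u j) → Fin b → Fin (N + 1) =>
    hdv (fun j i p v => a j i v * ∏ l, rp (κ j i l) (g p)) fun j i =>
      (DV.par (ha j i)).mul (DV.prod Finset.univ fun l => rp_dv (κ j i l) (DV.one hg))
  choose C hC0 hC' using fun (κ : ∀ j, Fin (u j) → Fin b → Fin (N + 1)) (l : Fin b) =>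
    IsoV.sm_curve (P l) (hP l) ((SM.ind (hθ l) (q := fun i _ v => c i v) fun i =>
      DV.par (hc i)).mul (cls_sm f hf hg κ l))
  refine ⟨fun p v => ∑ κ : ∀ j, Fin (u j) → Fin b → Fin (N + 1),
    D κ p v * ∏ l, C κ l p v, ?_, fun p _ v hC => ?_⟩
  · exact DV.sum Finset.univ fun κ => (hD κ).mul (DV.prod Finset.univ fun l => hC0 κ l)
  · rw [lu_sum]
    have h1 : ∀ z : ∀ l, Fin (A l) → ZMod p, (if ∀ l, Bs P θ c v p l (z l) then
        Ns M (cs a f v z) else 0) =
        ∑ κ : ∀ j, Fin (u j) → Fin b → Fin (N + 1),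
          Ns M (fun j i => (a j i v : ZMod p) * ∏ l, (rp (κ j i l) (g p : ZMod p) : ZMod p)) *
          ∏ l, (if ∀ e, sval (fun x => P l e x v) (z l) = 0 then
            ((if θ l (ZMod p) (Sum.elim (z l) fun i => (c i v : ZMod p)) then 1 else 0) *
            (if ∀ j i, Cl N (κ j i l) (ZMod p) ![sval (fun e => f j i l e v) (z l), (g p : ZMod p)]
              then 1 else 0)) else 0) := by
      intro z
      have h2 := expand_U M hN (hG p) (fun c ζ hζ => hinv N dvd_rfl p c ζ hζ)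
        (fun j i => (a j i v : ZMod p)) (fun j i l => sval (fun e => f j i l e v) (z l))
      by_cases h : ∀ l, Bs P θ c v p l (z l)
      · rw [if_pos h]
        refine h2.trans (Finset.sum_congr rfl fun κ _ => ?_)
        congr 1
        have h3 : ∀ l, (if ∀ e, sval (fun x => P l e x v) (z l) = 0 then
            ((if θ l (ZMod p) (Sum.elim (z l) fun i => (c i v : ZMod p)) then 1 else 0) *
            (if ∀ j i, Cl N (κ j i l) (ZMod p) ![sval (fun e => f j i l e v) (z l), (g p : ZMod p)]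
              then 1 else 0)) else 0) = if ∀ j i, Cl N (κ j i l) (ZMod p)
                ![sval (fun e => f j i l e v) (z l), (g p : ZMod p)] then 1 else 0 := by
          intro l
          rw [if_pos (h l).1, if_pos (h l).2, one_mul]
        simp only [h3]
        rw [Finset.prod_boole]
        by_cases h6 : ∀ j i l, Cl N (κ j i l) (ZMod p)
            ![sval (fun e => f j i l e v) (z l), (g p : ZMod p)]
        · rw [if_pos h6]
          exact (if_pos fun l _ j i => h6 j i l).symm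
        · rw [if_neg h6]
          exact (if_neg fun h7 => h6 fun j i l => h7 l (Finset.mem_univ l) j i).symm
      · rw [if_neg h]
        symm
        push Not at h
        obtain ⟨l, h⟩ := h
        refine Finset.sum_eq_zero fun κ _ => ?_
        rw [Finset.prod_eq_zero (Finset.mem_univ l), mul_zero]
        by_cases h4 : ∀ e, sval (fun x => P l e x v) (z l) = 0
        · rw [if_pos h4, if_neg fun h5 => h ⟨h4, h5⟩, zero_mul]
        · exact if_neg h4
    simp only [h1]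
    rw [Finset.sum_comm]
    refine Finset.sum_congr rfl fun κ _ => ?_
    rw [← Finset.mul_sum]
    congr 1
    · rw [hD' κ p v]
      congr 1
      funext j i
      rw [Nat.cast_mul, Nat.cast_prod]
      congr 1
      exact Finset.prod_congr rfl fun l _ => rp_cast (κ j i l) (ZMod p) (g p)
    · have h5 := Finset.prod_univ_sum (fun l : Fin b => (Finset.univ : Finset (Fin (A l) → ZMod p)))
        (fun l z => if ∀ e, sval (fun x => P l e x v) z = 0 then
            ((if θ l (ZMod p) (Sum.elim z fun i => (c i v : ZMod p)) then 1 else 0) *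
            (if ∀ j i, Cl N (κ j i l) (ZMod p) ![sval (fun e => f j i l e v) z, (g p : ZMod p)]
              then 1 else 0)) else 0)
      rw [Fintype.piFinset_univ] at h5
      rw [← h5]
      refine Finset.prod_congr rfl fun l _ => ?_
      exact hC' κ l p v (hC l)

end Pool.Agent.IsoE
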