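import Pool.Agent.IsoE.ULoc
import Pool.Agent.IsoE.FvP
import Pool.Agent.IsoE.Top
import Pool.Agent.CvQ.Crt
import Pool.Agent.CvQ.Wc

/-!
# Systems over products of curves with first-order conditions: numbers of solutions modulo squarefree numbers

`utop`: the systems of `stop`, and in addition formulas `φ l` of the language of rings for the unknowns `z l` (with
parameters), which hold in the ring `ZMod m`.
-/

set_option autoImplicit false

noncomputable section

namespace Pool.Agent.IsoE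

open Finset Polynomial Pool.Agent.PRc Pool.Agent.Grz Pool.Agent.CvS Pool.Agent.IsoC FirstOrder

variable {n b k s d t : ℕ} {A q : Fin b → ℕ} {u : Fin k → ℕ}

/-- the index type of all unknowns -/
abbrev Ti (A : Fin b → ℕ) (s : ℕ) : Type := ((l : Fin b) × Fin (A l)) ⊕ Fin s

/-- numbering of the unknowns -/
def en (A : Fin b → ℕ) (s : ℕ) : Fin (Fintype.card (Ti A s)) ≃ Ti A s := (Fintype.equivFin _).symm

/-- all unknowns in one vector -/
def fl (A : Fin b → ℕ) (s : ℕ) (R : Type) :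
    ((∀ l, Fin (A l) → R) × (Fin s → R)) ≃ (Fin (Fintype.card (Ti A s)) → R) where
  toFun w i := Sum.elim (fun a => w.1 a.1 a.2) w.2 (en A s i)
  invFun y := (fun l i => y ((en A s).symm (Sum.inl ⟨l, i⟩)), fun t => y ((en A s).symm (Sum.inr t)))
  left_inv w := by simp
  right_inv y := by
    funext i
    obtain ⟨j, rfl⟩ := (en A s).symm.surjective i
    show Sum.elim _ _ ((en A s) ((en A s).symm j)) = _
    rw [Equiv.apply_symm_apply]
    rcases j with j | j <;> rfl

open scoped Classical in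
private theorem card_fl {m : ℕ} (hm : m ≠ 0)
    (W : (∀ l, Fin (A l) → ZMod m) × (Fin s → ZMod m) → Prop) :
    Nat.card {w // W w} = #{y ∈ Fintype.piFinset fun _ : Fin (Fintype.card (Ti A s)) => range m |
      W ((fl A s (ZMod m)).symm fun i => (y i : ZMod m))} := by
  have : NeZero m := ⟨hm⟩
  rw [Nat.card_congr ((fl A s (ZMod m)).subtypeEquiv (p := W)
    (q := fun y => W ((fl A s (ZMod m)).symm y)) fun w => by rw [Equiv.symm_apply_apply]),
    Nat.card_eq_fintype_card, Fintype.card_subtype]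
  refine Finset.card_bij' (fun y _ i => (y i).val) (fun y _ i => (y i : ZMod m)) ?_ ?_ ?_ ?_
  · intro y hy
    rw [mem_filter] at hy ⊢
    refine ⟨Fintype.mem_piFinset.2 fun i => mem_range.2 (ZMod.val_lt _), ?_⟩
    simp only [ZMod.natCast_zmod_val]
    exact hy.2
  · intro y hy
    rw [mem_filter] at hy ⊢
    exact ⟨mem_univ _, hy.2⟩
  · intro y hy
    funext i
    exact ZMod.natCast_zmod_val _
  · intro y hy
    rw [mem_filter, Fintype.mem_piFinset] at hy
    funext i
    rw [ZMod.val_natCast]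
    exact Nat.mod_eq_of_lt (mem_range.1 (hy.1 i))

/-- the values of the equations of the base, natural numbers -/
private def nv (P : ∀ l, Fin (q l) → (Fin (A l) → Fin (d + 1)) → (Fin n → ℕ) → ℕ) (v : Fin n → ℕ)
    (y : Fin (Fintype.card (Ti A s)) → ℕ) (l : Fin b) (e : Fin (q l)) : ℕ :=
  sval (fun x => P l e x v) ((fl A s ℕ).symm y |>.1 l)

/-- the values of the other equations, natural numbers -/
private def ne (M : ∀ j, Fin (u j) → Fin s → ℕ) (a : ∀ j, Fin (u j) → (Fin n → ℕ) → ℕ)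
    (f : ∀ j, Fin (u j) → ∀ l, (Fin (A l) → Fin (d + 1)) → (Fin n → ℕ) → ℕ) (v : Fin n → ℕ)
    (y : Fin (Fintype.card (Ti A s)) → ℕ) (j : Fin k) : ℕ :=
  ∑ i, a j i v * (∏ l, sval (fun e => f j i l e v) ((fl A s ℕ).symm y |>.1 l)) *
    ∏ t, ((fl A s ℕ).symm y |>.2 t) ^ M j i t

/-- all equations -/
private def EU (P : ∀ l, Fin (q l) → (Fin (A l) → Fin (d + 1)) → (Fin n → ℕ) → ℕ)
    (M : ∀ j, Fin (u j) → Fin s → ℕ) (a : ∀ j, Fin (u j) → (Fin n → ℕ) → ℕ)
    (f : ∀ j, Fin (u j) → ∀ l, (Fin (A l) → Fin (d + 1)) → (Fin n → ℕ) → ℕ) (v : Fin n → ℕ)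
    (m : ℕ) (y : Fin (Fintype.card (Ti A s)) → ℕ) : Prop :=
  (∀ l e, m ∣ nv P v y l e) ∧ ∀ j, m ∣ ne M a f v y j

private theorem sval_cast_U {r : ℕ} (K : Type) [CommRing K] (c : (Fin r → Fin (d + 1)) → ℕ)
    (z : Fin r → ℕ) : ((sval c z : ℕ) : K) = sval c (fun i => (z i : K)) := by
  unfold sval
  simp only [Nat.cast_sum, Nat.cast_mul, Nat.cast_prod, Nat.cast_pow, Nat.cast_id]

variable {P : ∀ l, Fin (q l) → (Fin (A l) → Fin (d + 1)) → (Fin n → ℕ) → ℕ}
  {M : ∀ j, Fin (u j) → Fin s → ℕ} {a : ∀ j, Fin (u j) → (Fin n → ℕ) → ℕ}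
  {f : ∀ j, Fin (u j) → ∀ l, (Fin (A l) → Fin (d + 1)) → (Fin n → ℕ) → ℕ}

private theorem eu_iff (v : Fin n → ℕ) (m : ℕ) (y : Fin (Fintype.card (Ti A s)) → ℕ) :
    EU P M a f v m y ↔
      (∀ l e, sval (fun x => P l e x v)
        (((fl A s (ZMod m)).symm fun i => (y i : ZMod m)).1 l) = 0) ∧
      ∀ j, ∑ i, cs a f v ((fl A s (ZMod m)).symm fun i => (y i : ZMod m)).1 j i *
        ∏ t, ((fl A s (ZMod m)).symm fun i => (y i : ZMod m)).2 t ^ M j i t = 0 := by
  unfold EU
  refine and_congr (forall_congr' fun l => forall_congr' fun e => ?_) (forall_congr' fun j => ?_)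
  · rw [← ZMod.natCast_eq_zero_iff, nv, sval_cast_U]
    rfl
  · rw [← ZMod.natCast_eq_zero_iff, ne]
    unfold cs
    simp only [Nat.cast_sum, Nat.cast_mul, Nat.cast_prod, Nat.cast_pow, sval_cast_U]
    rfl

private theorem dvd_sqf {m : ℕ} (hm : Squarefree m) (N : ℕ) :
    m ∣ N ↔ ∀ p ∈ m.primeFactors, p ∣ N := by
  constructor
  · intro h p hp
    exact (Nat.dvd_of_mem_primeFactors hp).trans h
  · intro h
    rw [← Nat.prod_primeFactors_of_squarefree hm]
    exact Finset.prod_primes_dvd _ (fun p hp => (Nat.prime_of_mem_primeFactors hp).prime) h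

private theorem eu_sqf {v : Fin n → ℕ} {m : ℕ} (hm : Squarefree m)
    (y : Fin (Fintype.card (Ti A s)) → ℕ) :
    EU P M a f v m y ↔ ∀ p ∈ m.primeFactors, EU P M a f v p y := by
  unfold EU
  constructor
  · rintro ⟨h1, h2⟩ p hp
    exact ⟨fun l e => (dvd_sqf hm _).1 (h1 l e) p hp, fun j => (dvd_sqf hm _).1 (h2 j) p hp⟩
  · intro h
    exact ⟨fun l e => (dvd_sqf hm _).2 fun p hp => (h p hp).1 l e,
      fun j => (dvd_sqf hm _).2 fun p hp => (h p hp).2 j⟩

private theorem eu_mod {v : Fin n → ℕ} {m : ℕ} {y y' : Fin (Fintype.card (Ti A s)) → ℕ}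
    (h : ∀ i, y i ≡ y' i [MOD m]) : EU P M a f v m y ↔ EU P M a f v m y' := by
  have e : (fun i => (y i : ZMod m)) = fun i => (y' i : ZMod m) :=
    funext fun i => (ZMod.natCast_eq_natCast_iff _ _ _).2 (h i)
  rw [eu_iff, eu_iff, e]

/-- the arguments of the relations -/
private def ar (c : Fin t → (Fin n → ℕ) → ℕ) (v : Fin n → ℕ)
    (y : Fin (Fintype.card (Ti A s)) → ℕ) : ((l : Fin b) × Fin (A l)) ⊕ Fin t → ℕ :=
  Sum.elim (fun a => (fl A s ℕ).symm y |>.1 a.1 a.2) fun i => c i v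

private theorem fp_iff_U {ι : Type} (p : ℕ) [Fact p.Prime] (θ : FR ι) (x : ι → ℕ) :
    CvQ.FP θ p x ↔ θ (ZMod p) (fun i => (x i : ZMod p)) :=
  ⟨fun ⟨_, h⟩ => h, fun h => ⟨Fact.out, h⟩⟩

private theorem fp_mod_U {ι : Type} {p : ℕ} (θ : FR ι) {x y : ι → ℕ}
    (h : ∀ i, x i ≡ y i [MOD p]) : CvQ.FP θ p x ↔ CvQ.FP θ p y := by
  unfold CvQ.FP
  refine exists_congr fun hp => ?_
  have := Fact.mk hp
  have h2 : (fun i => (x i : ZMod p)) = fun i => (y i : ZMod p) :=
    funext fun i => (ZMod.natCast_eq_natCast_iff _ _ _).2 (h i)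
  exact iff_of_eq (congrArg (θ (ZMod p)) h2)

open scoped Classical in
/-- the number of the solutions modulo `p` with a relation -/
private def NU (P : ∀ l, Fin (q l) → (Fin (A l) → Fin (d + 1)) → (Fin n → ℕ) → ℕ)
    (M : ∀ j, Fin (u j) → Fin s → ℕ) (a : ∀ j, Fin (u j) → (Fin n → ℕ) → ℕ)
    (f : ∀ j, Fin (u j) → ∀ l, (Fin (A l) → Fin (d + 1)) → (Fin n → ℕ) → ℕ)
    (θ : FR (((l : Fin b) × Fin (A l)) ⊕ Fin t)) (c : Fin t → (Fin n → ℕ) → ℕ) (v : Fin n → ℕ)
    (p : ℕ) : ℕ :=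
  #{y ∈ Fintype.piFinset fun _ : Fin (Fintype.card (Ti A s)) => range p |
    EU P M a f v p y ∧ CvQ.FP θ p (ar c v y)}

private theorem nu_lu {θ : FR (((l : Fin b) × Fin (A l)) ⊕ Fin t)}
    {θ' : ∀ l, FR (Fin (A l) ⊕ Fin t)} (h : ∀ (K : Type) [Field K]
      (y : ((l : Fin b) × Fin (A l)) ⊕ Fin t → K), θ K y ↔ ∀ l, θ' l K (rs l y))
    (c : Fin t → (Fin n → ℕ) → ℕ) (v : Fin n → ℕ) (p : ℕ) [Fact p.Prime] :
    NU P M a f θ c v p = Lu P M a f θ' c v p := by
  classical
  have hp : p ≠ 0 := (Fact.out : p.Prime).ne_zero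
  unfold Lu
  rw [card_fl hp]
  unfold NU
  refine congrArg card (Finset.ext fun y => ?_)
  simp only [Finset.mem_filter]
  refine and_congr_right fun _ => ?_
  rw [eu_iff, fp_iff_U, h]
  unfold Bs
  have e : ∀ l, rs l (fun i => ((ar c v y i : ℕ) : ZMod p)) =
      Sum.elim (((fl A s (ZMod p)).symm fun i => (y i : ZMod p)).1 l)
        fun i => (c i v : ZMod p) := by
    intro l
    funext j
    rcases j with j | j <;> rfl
  simp only [e]
  constructor
  · rintro ⟨⟨h1, h2⟩, h3⟩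
    exact ⟨fun l => ⟨h1 l, h3 l⟩, h2⟩
  · rintro ⟨h1, h2⟩
    exact ⟨⟨fun l => (h1 l).1, h2⟩, fun l => (h1 l).2⟩

private theorem nu_sum {K : ℕ} (p : ℕ) (hp : p.Prime)
    (θ : Fin K → FR (((l : Fin b) × Fin (A l)) ⊕ Fin t)) (hP : CvQ.Prt θ)
    (c : Fin t → (Fin n → ℕ) → ℕ) (v : Fin n → ℕ) :
    ∑ i, NU P M a f (θ i) c v p ≤ p ^ Fintype.card (Ti A s) := by
  classical
  have := Fact.mk hp
  have h1 : ∑ i, NU P M a f (θ i) c v p = #((univ : Finset (Fin K)).biUnion fun i =>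
      {y ∈ Fintype.piFinset fun _ : Fin (Fintype.card (Ti A s)) => range p |
        EU P M a f v p y ∧ CvQ.FP (θ i) p (ar c v y)}) := by
    rw [Finset.card_biUnion]
    · refine Finset.sum_congr rfl fun i _ => ?_
      unfold NU
      congr
    · intro i _ j _ hij
      rw [Function.onFun, Finset.disjoint_left]
      intro z hz hz'
      rw [mem_filter] at hz hz'
      have e1 := (fp_iff_U p (θ i) _).1 hz.2.2
      have e2 := (fp_iff_U p (θ j) _).1 hz'.2.2
      exact hij ((hP (ZMod p) _).unique e1 e2)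
  rw [h1]
  have h2 : ((univ : Finset (Fin K)).biUnion fun i =>
      {y ∈ Fintype.piFinset fun _ : Fin (Fintype.card (Ti A s)) => range p |
        EU P M a f v p y ∧ CvQ.FP (θ i) p (ar c v y)}) ⊆
      Fintype.piFinset fun _ : Fin (Fintype.card (Ti A s)) => range p := by
    intro z hz
    rw [mem_biUnion] at hz
    obtain ⟨i, -, hz⟩ := hz
    exact (mem_filter.1 hz).1
  refine (card_le_card h2).trans ?_
  rw [Fintype.card_piFinset]
  simp

/-- the formula holds in the ring `R` -/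
def Hd {α : Type} (φ : Language.ring.Formula α) (R : Type) [CommRing R] (x : α → R) : Prop :=
  letI := FirstOrder.Ring.compatibleRingOfRing R
  φ.Realize x

/-- the number of the solutions -/
def Uc (P : ∀ l, Fin (q l) → (Fin (A l) → Fin (d + 1)) → (Fin n → ℕ) → ℕ)
    (M : ∀ j, Fin (u j) → Fin s → ℕ) (a : ∀ j, Fin (u j) → (Fin n → ℕ) → ℕ)
    (f : ∀ j, Fin (u j) → ∀ l, (Fin (A l) → Fin (d + 1)) → (Fin n → ℕ) → ℕ)
    (φ : ∀ l, Language.ring.Formula (Fin (A l) ⊕ Fin t)) (c : Fin t → (Fin n → ℕ) → ℕ)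
    (v : Fin n → ℕ) (R : Type) [CommRing R] : ℕ :=
  Nat.card {w : (∀ l, Fin (A l) → R) × (Fin s → R) //
    (∀ l, (∀ e, sval (fun x => P l e x v) (w.1 l) = 0) ∧
      Hd (φ l) R (Sum.elim (w.1 l) fun i => (c i v : R))) ∧
    ∀ j, ∑ i, cs a f v w.1 j i * ∏ t, w.2 t ^ M j i t = 0}

private theorem cw_congr_U {K : ℕ} {T : Finset ℕ} {N N' : Fin K → ℕ → ℕ} (B : ℕ)
    (Z : Set (Fin K → ℕ)) (h : ∀ i, ∀ p ∈ T, N i p = N' i p) :
    CvQ.CW T N B Z = CvQ.CW T N' B Z := by
  unfold CvQ.CW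
  refine Finset.sum_congr rfl fun σ _ => ?_
  have h1 : ∏ p : T, N (σ p) p = ∏ p : T, N' (σ p) p :=
    Finset.prod_congr rfl fun p _ => h _ _ p.2
  rw [h1]

private theorem uc_cw {K B m : ℕ} (hm : Squarefree m)
    {φ : ∀ l, Language.ring.Formula (Fin (A l) ⊕ Fin t)} {c : Fin t → (Fin n → ℕ) → ℕ}
    (v : Fin n → ℕ) {θ : Fin K → FR (((l : Fin b) × Fin (A l)) ⊕ Fin t)}
    {Z : Set (Fin K → ℕ)} (hP : CvQ.Prt θ) (hZ : ∀ m, Squarefree m → ∀ x,
      (∀ l, CvQ.rf (φ l) m (rs l x)) ↔ CvQ.cap B θ m x ∈ Z) :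
    Uc P M a f φ c v (ZMod m) =
      CvQ.CW m.primeFactors (fun i p => NU P M a f (θ i) c v p) B Z := by
  classical
  have h1 := CvQ.cw_count (n := Fintype.card (Ti A s)) hm (fun p y => EU P M a f v p y)
    (fun i p y => CvQ.FP (θ i) p (ar c v y)) (fun p z z' h => eu_mod h)
    (fun i p z z' h => fp_mod_U (θ i) fun j => by
      rcases j with j | j
      · exact h _
      · exact Nat.ModEq.refl _)
    (fun p hp z => by
      have := Fact.mk hp
      obtain ⟨i, hi, hu⟩ := hP (ZMod p) (fun j => ((ar c v z j : ℕ) : ZMod p))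
      exact ⟨i, (fp_iff_U p (θ i) _).2 hi, fun j hj => hu j ((fp_iff_U p (θ j) _).1 hj)⟩) B Z
  have h2 : Uc P M a f φ c v (ZMod m) =
      #{y ∈ Fintype.piFinset fun _ : Fin (Fintype.card (Ti A s)) => range m |
      (∀ p ∈ m.primeFactors, EU P M a f v p y) ∧
      (fun i => min B #{p ∈ m.primeFactors | CvQ.FP (θ i) p (ar c v y)}) ∈ Z} := by
    unfold Uc
    rw [card_fl hm.ne_zero]
    refine congrArg card (Finset.ext fun y => ?_)
    simp only [Finset.mem_filter]
    refine and_congr_right fun _ => ?_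
    rw [← eu_sqf hm]
    have h3 := hZ m hm (ar c v y)
    have e : ∀ l, CvQ.rf (φ l) m (rs l (ar c v y)) ↔ Hd (φ l) (ZMod m)
        (Sum.elim (((fl A s (ZMod m)).symm fun i => (y i : ZMod m)).1 l)
          fun i => (c i v : ZMod m)) := by
      intro l
      unfold CvQ.rf Hd
      have e1 : (fun i => ((rs l (ar c v y) i : ℕ) : ZMod m)) =
          Sum.elim (((fl A s (ZMod m)).symm fun i => (y i : ZMod m)).1 l)
            fun i => (c i v : ZMod m) := by
        funext j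
        rcases j with j | j <;> rfl
      rw [e1]
    simp only [e] at h3
    rw [eu_iff]
    constructor
    · rintro ⟨h4, h5⟩
      exact ⟨⟨fun l => (h4 l).1, h5⟩, h3.1 fun l => (h4 l).2⟩
    · rintro ⟨⟨h4, h5⟩, h6⟩
      exact ⟨fun l => ⟨h4 l, h3.2 h6 l⟩, h5⟩
  refine h2.trans (Eq.trans ?_ (h1.trans (cw_congr_U B Z fun i p _ => ?_)))
  · congr
  · unfold NU
    congr

open scoped Classical in
theorem utop (hP : ∀ l e x, DFun n (P l e x))
    (hM : ∀ g : ∀ j, Fin (u j) → ℚ, (∀ j, ∑ i, g j i = 0) →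
      (∀ t, ∑ j, ∑ i, g j i * M j i t = 0) → ∀ j i, g j i = 0)
    (ha : ∀ j i, DFun n (a j i)) (hf : ∀ j i l e, DFun n (f j i l e))
    (φ : ∀ l, Language.ring.Formula (Fin (A l) ⊕ Fin t)) {c : Fin t → (Fin n → ℕ) → ℕ}
    (hc : ∀ i, DFun n (c i)) {m : (Fin n → ℕ) → ℕ} (hm : DFun n m) :
    DFun n (fun v => if Gd P v (m v) then Uc P M a f φ c v (ZMod (m v)) else 0) := by
  obtain ⟨K, B, θ, Z, hθ, hPt, hZ⟩ := fvp φ
  choose θ' hθ' hθe using hθ
  choose F hF hF' using fun i => ulc P hP M hM a ha f hf (θ' i) (hθ' i) c hc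
  set S : ℕ := Fintype.card (Ti A s) with hSdef
  have hm' : DFun n (fun v => if Squarefree (m v) then m v else 1) :=
    DFun.ite (sqf_T hm) hm (DFun.const 1)
  have hN' : ∀ i, DFun (n + 1) (fun w => (fun (i : Fin K) (q : ℕ) (v : Fin n → ℕ) =>
      if ∀ l, Cv q (fun e x => P l e x v) then F i q v else 0) i (w 0)
        (fun i => w i.succ)) := by
    intro i
    exact DFun.ite (PTr.Delta0.allOf fun l => CvH.cv_delta (DFun.proj 0) fun e x =>
      (hP l e x).weak) (hF i) (DFun.const 0)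
  have hb : ∀ v : Fin n → ℕ, ∏ q ∈ (if Squarefree (m v) then m v else 1).primeFactors,
      ∑ i, (if ∀ l, Cv q (fun e x => P l e x v) then F i q v else 0) ≤
        (if Squarefree (m v) then m v else 1) ^ S := by
    intro v
    have h0 : (if Squarefree (m v) then m v else 1) ≠ 0 := by
      split_ifs with h1
      · exact h1.ne_zero
      · exact one_ne_zero
    calc ∏ q ∈ (if Squarefree (m v) then m v else 1).primeFactors,
          ∑ i, (if ∀ l, Cv q (fun e x => P l e x v) then F i q v else 0)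
        ≤ ∏ q ∈ (if Squarefree (m v) then m v else 1).primeFactors, q ^ S := by
          refine Finset.prod_le_prod' fun q hq => ?_
          have hqp := Nat.prime_of_mem_primeFactors hq
          have := Fact.mk hqp
          by_cases hC : ∀ l, Cv q (fun e x => P l e x v)
          · simp only [if_pos hC]
            have e1 : ∑ i, F i q v = ∑ i, NU P M a f (θ i) c v q :=
              Finset.sum_congr rfl fun i _ =>
                (hF' i q v hC).trans (nu_lu (hθe i) c v q).symm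
            rw [e1]
            exact nu_sum q hqp θ hPt c v
          · simp only [if_neg hC, Finset.sum_const_zero]
            exact Nat.zero_le _
      _ = (∏ q ∈ (if Squarefree (m v) then m v else 1).primeFactors, q) ^ S :=
          Finset.prod_pow _ _ _
      _ ≤ (if Squarefree (m v) then m v else 1) ^ S :=
          Nat.pow_le_pow_left (Nat.le_of_dvd (Nat.pos_of_ne_zero h0)
            (Nat.prod_primeFactors_dvd _)) S
  have h2 := CvQ.cw_def (m := fun v => if Squarefree (m v) then m v else 1)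
    (Bd := fun v => (if Squarefree (m v) then m v else 1) ^ S)
    (N := fun (i : Fin K) (q : ℕ) (v : Fin n → ℕ) =>
      if ∀ l, Cv q (fun e x => P l e x v) then F i q v else 0) hN' hm'
    (PTr.DFun.powConst hm' S) hb B Z
  have e : (fun v => if Gd P v (m v) then Uc P M a f φ c v (ZMod (m v)) else 0) = fun v =>
      if Gd P v (m v) then CvQ.CW (if Squarefree (m v) then m v else 1).primeFactors
        (fun i q => if ∀ l, Cv q (fun e x => P l e x v) then F i q v else 0) B Z else 0 := by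
    funext v
    by_cases hv : Gd P v (m v)
    · rw [if_pos hv, if_pos hv, if_pos hv.1, uc_cw hv.1 v hPt hZ]
      refine cw_congr_U B Z fun i p hp => ?_
      have hpp := Nat.prime_of_mem_primeFactors hp
      have := Fact.mk hpp
      have hC := hv.2 p hpp (Nat.dvd_of_mem_primeFactors hp)
      rw [if_pos hC]
      exact (nu_lu (hθe i) c v p).trans (hF' i p v hC).symm
    · rw [if_neg hv, if_neg hv]
  rw [e]
  exact DFun.ite (gd_T hP hm) h2 (DFun.const 0)

end Pool.Agent.IsoE
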